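import Pool.Agent.Lib.MP_60829e_nt.SY.Cnt
import Pool.Agent.Lib.MP_60829e_nt.FQ.Chain

/-! # The coefficients of the relation lie in a fixed finite-dimensional space -/

open MvPolynomial Module

namespace MP60829e.SY

open MP60829e.ST (Qa Lsp Lt)
open MP60829e.FC (Xr Gen)

theorem Lsp_le_Lt : Lsp ≤ Lt := by
  unfold ST.Lsp ST.Lt
  exact Submodule.span_mono Set.subset_union_right

theorem one_mem_Lt : (1 : ℂ) ∈ Lt := by
  unfold ST.Lt
  exact Submodule.subset_span (Or.inl rfl)

theorem mem_Lt' {x : ℂ} (hx : x ∈ Lt) : ∃ β : Qa, ∃ l ∈ Lsp, x = (β : ℂ) + l := by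
  unfold ST.Lt at hx
  rw [Submodule.span_union, Submodule.mem_sup] at hx
  obtain ⟨y, hy, l, hl, rfl⟩ := hx
  rw [Submodule.mem_span_singleton] at hy
  obtain ⟨β, rfl⟩ := hy
  refine ⟨β, l, hl, ?_⟩
  rw [smul_eq, mul_one]

/-- The points of `Lt ^ E` on a hyperplane with independent coefficients. -/
def Vw {E : ℕ} (ω : Fin E → ℂ) : Submodule Qa (Fin E → ℂ) where
  carrier := {v | (∀ i, v i ∈ Lt) ∧ ∑ i, ω i * v i = 0}
  zero_mem' := ⟨fun _ => Lt.zero_mem, by simp⟩
  add_mem' := by
    rintro v w ⟨h1, h3⟩ ⟨h1', h3'⟩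
    refine ⟨fun s => Lt.add_mem (h1 s) (h1' s), ?_⟩
    simp only [Pi.add_apply, mul_add, Finset.sum_add_distrib, h3, h3', add_zero]
  smul_mem' := by
    rintro c v ⟨h1, h3⟩
    refine ⟨fun s => Lt.smul_mem c (h1 s), ?_⟩
    simp only [Pi.smul_apply, mul_smul_comm, ← Finset.smul_sum, h3, smul_zero]

theorem Vw_fg {E : ℕ} (ω : Fin E → ℂ) (hω : LinearIndependent Qa ω) : (Vw ω).FG := by
  classical
  let f : (Fin E → ℂ) →ₗ[Qa] (Fin E → ℂ ⧸ Lsp) :=
    LinearMap.pi fun i => Lsp.mkQ ∘ₗ LinearMap.proj i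
  have hf : ∀ v i, f v i = Lsp.mkQ (v i) := fun v i => rfl
  refine Submodule.fg_of_fg_map_of_fg_inf_ker f ?_ ?_
  · let S : Submodule Qa (Fin E → ℂ ⧸ Lsp) :=
      Submodule.pi Set.univ fun _ => Submodule.span Qa {Lsp.mkQ (1 : ℂ)}
    have h1 : (Vw ω).map f ≤ Submodule.span Qa (Set.range fun e : Fin E =>
        Pi.single (M := fun _ => ℂ ⧸ Lsp) e (Lsp.mkQ (1 : ℂ))) := by
      rintro _ ⟨v, hv, rfl⟩
      have h2 : ∀ i, ∃ β : Qa, Lsp.mkQ (v i) = β • Lsp.mkQ (1 : ℂ) := by
        intro i
        obtain ⟨β, l, hl, h3⟩ := mem_Lt' (hv.1 i)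
        refine ⟨β, ?_⟩
        rw [h3, map_add, ← map_smul, smul_eq, mul_one]
        have h4 : Lsp.mkQ l = 0 := (Submodule.Quotient.mk_eq_zero _).2 hl
        rw [h4, add_zero]
      choose β hβ using h2
      have h3 : f v = ∑ e, β e • Pi.single (M := fun _ => ℂ ⧸ Lsp) e (Lsp.mkQ (1 : ℂ)) := by
        funext i
        rw [hf, hβ, Finset.sum_apply]
        simp only [Pi.smul_apply]
        rw [Finset.sum_eq_single i]
        · rw [Pi.single_eq_same]
        · intro e _ he
          rw [Pi.single_eq_of_ne (Ne.symm he), smul_zero]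
        · intro h
          exact absurd (Finset.mem_univ _) h
      rw [h3]
      exact Submodule.sum_mem _ fun e _ => Submodule.smul_mem _ _ (Submodule.subset_span ⟨e, rfl⟩)
    have h5 : FiniteDimensional Qa (Submodule.span Qa (Set.range fun e : Fin E =>
        Pi.single (M := fun _ => ℂ ⧸ Lsp) e (Lsp.mkQ (1 : ℂ)))) :=
      FiniteDimensional.span_of_finite Qa (Set.finite_range _)
    have h6 : FiniteDimensional Qa ((Vw ω).map f) := Submodule.finiteDimensional_of_le h1
    exact Module.Finite.iff_fg.1 h6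
  · let V0 : Submodule Qa (Fin E → ℂ) := Vw ω ⊓ LinearMap.ker f
    obtain ⟨hf0, -⟩ := HS.hps ω hω V0 (fun v hv i => by
      have h1 : f v = 0 := hv.2
      have h2 := congrFun h1 i
      rw [hf] at h2
      exact (Submodule.Quotient.mk_eq_zero _).1 h2) (fun v hv => hv.1.2)
    exact Module.Finite.iff_fg.1 hf0

/-- The substitution of the combinations. -/
noncomputable def th0 {N n r : ℕ} (lam : Fin (r + 1) → ℂ) : Fin N ⊕ Fin n →
    MvPolynomial (Fin N ⊕ (Fin n × Fin (r + 1))) ℂ :=
  Sum.elim (fun l => X (Sum.inl l)) fun i => ∑ j, C (lam j) * X (Sum.inr (i, j))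

theorem ev_th0 {N n r : ℕ} (lam : Fin (r + 1) → ℂ) (z : Fin N → Qa)
    (M : Fin n × Fin (r + 1) → Qa) (P : MvPolynomial (Fin N ⊕ Fin n) ℂ) :
    TV.ev (Sum.elim z M) (aeval (th0 lam) P) =
      eval (Sum.elim (fun l => (z l : ℂ)) (TV.pt lam M)) P := by
  rw [FQ.ev_aeval]
  congr 2
  funext t
  rcases t with l | i
  · simp only [th0, Sum.elim_inl]
    rw [TV.ev_X]
    rfl
  · simp only [th0, Sum.elim_inr]
    rw [map_sum]
    unfold TV.pt
    refine Finset.sum_congr rfl fun j _ => ?_
    rw [TV.ev_mul, TV.ev_C, TV.ev_X, Algebra.smul_def, mul_comm]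
    rfl

/-- The values lie in a fixed finite-dimensional space. -/
theorem exists_W {n s N r : ℕ} (lam : Fin (r + 1) → ℂ)
    (Q : Fin s → MvPolynomial (Fin N ⊕ Fin n) ℂ) :
    ∃ W : Submodule Qa ℂ, FiniteDimensional Qa W ∧ ∀ (z : Fin N → Qa)
      (M : Fin n × Fin (r + 1) → Qa) (j : Fin s),
        eval (Sum.elim (fun l => (z l : ℂ)) (TV.pt lam M)) (Q j) ∈ W := by
  classical
  obtain ⟨Z, hZ⟩ : ∃ Z : Finset ℂ, Z = Finset.univ.biUnion fun j : Fin s =>
    (aeval (th0 lam) (Q j) : MvPolynomial (Fin N ⊕ (Fin n × Fin (r + 1))) ℂ).support.image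
      fun a => coeff a (aeval (th0 lam) (Q j)) := ⟨_, rfl⟩
  refine ⟨Submodule.span Qa (Z : Set ℂ), FiniteDimensional.span_of_finite Qa Z.finite_toSet,
    fun z M j => ?_⟩
  rw [← ev_th0]
  refine TV.ev_mem _ _ _ fun a => ?_
  by_cases ha : coeff a (aeval (th0 lam) (Q j) :
      MvPolynomial (Fin N ⊕ (Fin n × Fin (r + 1))) ℂ) = 0
  · rw [ha]
    exact Submodule.zero_mem _
  · apply Submodule.subset_span
    rw [hZ, Finset.mem_coe, Finset.mem_biUnion]
    exact ⟨j, Finset.mem_univ _, Finset.mem_image.2 ⟨a, mem_support_iff.2 ha, rfl⟩⟩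

/-- If the values are independent then the solutions of the relation lie in a fixed
finite-dimensional space. -/
theorem exists_L0 {n s N r : ℕ} (lam : Fin (r + 1) → ℂ)
    (Q : Fin s → MvPolynomial (Fin N ⊕ Fin n) ℂ) :
    ∃ L0 : Submodule Qa ℂ, FiniteDimensional Qa L0 ∧ L0 ≤ Lt ∧ ∀ (z : Fin N → Qa)
      (M : Fin n × Fin (r + 1) → Qa) (l : Fin s → ℂ), (∀ j, l j ∈ Lt) →
        LinearIndependent Qa (fun j =>
          eval (Sum.elim (fun l => (z l : ℂ)) (TV.pt lam M)) (Q j)) →
        ∑ j, l j * eval (Sum.elim (fun l => (z l : ℂ)) (TV.pt lam M)) (Q j) = 0 →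
        ∀ j, l j ∈ L0 := by
  classical
  obtain ⟨W, hWf, hW⟩ := exists_W lam Q
  let b := finBasis Qa W
  obtain ⟨ω, hω⟩ : ∃ ω : Fin (finrank Qa W) → ℂ, ω = fun e => (b e : ℂ) := ⟨_, rfl⟩
  have hli : LinearIndependent Qa ω := by
    rw [hω]
    exact b.linearIndependent.map' W.subtype (Submodule.ker_subtype W)
  have hVf : FiniteDimensional Qa (Vw ω) := Module.Finite.iff_fg.2 (Vw_fg ω hli)
  refine ⟨⨆ e, (Vw ω).map (LinearMap.proj e), inferInstance, ?_, ?_⟩
  · refine iSup_le fun e => ?_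
    rintro _ ⟨v, hv, rfl⟩
    exact hv.1 e
  · intro z M l hl hind hsum
    obtain ⟨h, hh⟩ : ∃ h : Fin s → ℂ, h = fun j =>
      eval (Sum.elim (fun l => (z l : ℂ)) (TV.pt lam M)) (Q j) := ⟨_, rfl⟩
    have hmem : ∀ j, h j ∈ W := by
      intro j
      rw [hh]
      exact hW z M j
    obtain ⟨q, hq⟩ : ∃ q : Fin s → Fin (finrank Qa W) → Qa,
      q = fun j e => b.repr ⟨h j, hmem j⟩ e := ⟨_, rfl⟩
    have hhq : ∀ j, h j = ∑ e, (q j e : ℂ) * ω e := by
      intro j
      have h1 := congrArg W.subtype (b.sum_repr ⟨h j, hmem j⟩)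
      rw [map_sum] at h1
      simp only [map_smul, Submodule.subtype_apply] at h1
      rw [hq, hω]
      exact h1.symm
    rw [← hh] at hind
    have hsum' : ∑ j, l j * h j = 0 := by
      rw [hh]
      exact hsum
    -- a left inverse
    let f : (Fin s → Qa) →ₗ[Qa] (Fin (finrank Qa W) → Qa) := Fintype.linearCombination Qa q
    have hf : ∀ c, f c = ∑ j, c j • q j := fun c => Fintype.linearCombination_apply Qa q c
    have hker : LinearMap.ker f = ⊥ := by
      rw [LinearMap.ker_eq_bot']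
      intro c hc
      funext j
      refine (Fintype.linearIndependent_iff.1 hind) c ?_ j
      have h1 : ∀ e, ∑ j, c j * q j e = 0 := by
        intro e
        have h2 := congrFun hc e
        rw [hf, Finset.sum_apply] at h2
        exact h2
      calc ∑ j, c j • h j = ∑ j, ∑ e, ((c j * q j e : Qa) : ℂ) * ω e := by
            refine Finset.sum_congr rfl fun j _ => ?_
            rw [smul_eq, hhq, Finset.mul_sum]
            refine Finset.sum_congr rfl fun e _ => ?_
            push_cast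
            ring
        _ = ∑ e, ((∑ j, c j * q j e : Qa) : ℂ) * ω e := by
            rw [Finset.sum_comm]
            refine Finset.sum_congr rfl fun e _ => ?_
            push_cast
            rw [Finset.sum_mul]
        _ = 0 := by
            refine Finset.sum_eq_zero fun e _ => ?_
            rw [h1 e]
            simp
    obtain ⟨g, hg⟩ := LinearMap.exists_leftInverse_of_injective f hker
    have hgj : ∀ i j, g (q j) i = if i = j then 1 else 0 := by
      intro i j
      have h1 : f (Pi.single j 1) = q j := by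
        rw [hf, Finset.sum_eq_single j]
        · rw [Pi.single_eq_same, one_smul]
        · intro e _ he
          rw [Pi.single_eq_of_ne he, zero_smul]
        · intro h
          exact absurd (Finset.mem_univ _) h
      rw [← h1]
      have h2 : g (f (Pi.single j 1)) = Pi.single j 1 := LinearMap.congr_fun hg _
      rw [h2, Pi.single_apply]
    have hge : ∀ i (y : Fin (finrank Qa W) → Qa), g y i = ∑ e, y e * g (Pi.single e 1) i := by
      intro i y
      conv_lhs => rw [pi_eq_sum_univ' y]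
      rw [map_sum, Finset.sum_apply]
      refine Finset.sum_congr rfl fun e _ => ?_
      rw [map_smul, Pi.smul_apply, smul_eq_mul]
    obtain ⟨v, hv⟩ : ∃ v : Fin (finrank Qa W) → ℂ, v = fun e => ∑ j, (q j e : ℂ) * l j := ⟨_, rfl⟩
    have hvV : v ∈ Vw ω := by
      refine ⟨fun e => ?_, ?_⟩
      · rw [hv]
        exact Submodule.sum_mem _ fun j _ => Lt.smul_mem _ (hl j)
      · rw [hv, ← hsum']
        simp only [Finset.mul_sum]
        rw [Finset.sum_comm]
        refine Finset.sum_congr rfl fun j _ => ?_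
        rw [hhq, Finset.mul_sum]
        exact Finset.sum_congr rfl fun e _ => by ring
    intro i
    have hli' : l i = ∑ e, g (Pi.single e 1) i • v e := by
      rw [hv]
      simp only [smul_eq, Finset.mul_sum]
      rw [Finset.sum_comm]
      have h1 : ∀ j, ∑ e, ((g (Pi.single e 1) i : Qa) : ℂ) * ((q j e : ℂ) * l j) =
          if i = j then l j else 0 := by
        intro j
        have h2 : ((∑ e, q j e * g (Pi.single e 1) i : Qa) : ℂ) = if i = j then 1 else 0 := by
          rw [← hge, hgj]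
          split_ifs <;> rfl
        push_cast at h2
        calc ∑ e, ((g (Pi.single e 1) i : Qa) : ℂ) * ((q j e : ℂ) * l j) =
              (∑ e, (q j e : ℂ) * ((g (Pi.single e 1) i : Qa) : ℂ)) * l j := by
              rw [Finset.sum_mul]
              exact Finset.sum_congr rfl fun e _ => by ring
          _ = if i = j then l j else 0 := by
              rw [h2]
              split_ifs <;> simp
      rw [Finset.sum_congr rfl fun j _ => h1 j]
      simp
    rw [hli']
    refine Submodule.sum_mem _ fun e _ => Submodule.smul_mem _ _ ?_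
    exact Submodule.mem_iSup_of_mem e ⟨v, hvV, rfl⟩

end MP60829e.SY
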