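import Pool.Agent.Lib.MP_60829e_nt.SY.ColA
import Pool.Agent.Lib.MP_60829e_nt.FQ.Col
import Pool.Agent.Lib.MP_60829e_nt.FR.Dep

/-! # The column lemma for linear relations with unknown logarithms -/

open MvPolynomial Module

namespace MP60829e.SY

open MP60829e.ST (Qa Lsp Lt)
open MP60829e.FC (Xr Gen)
open MP60829e.FQ (lpt lamS pt_lamS derivative_aeval Lq mem_Lq eval_line natDegree_aeval_le)
open MP60829e.FL (all_of_choice)

theorem eval_GP {N n s R r : ℕ} (lam : Fin (r + 1) → ℂ) (b : Fin R → ℂ)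
    (Q : Fin s → MvPolynomial (Fin N ⊕ Fin n) ℂ) (z : Fin N → Qa) (y : Fin s × Fin R → Qa)
    (γ : Fin s → Qa) (M : Fin n × Fin (r + 1) → Qa) (σ : ℂ) :
    (GP lam b Q z y γ M).eval σ = ∑ j, (TV.pt b y j + σ * (γ j : ℂ)) *
      eval (Sum.elim (fun l => (z l : ℂ))
        (fun i => TV.pt lam M i + σ * (M (i, Fin.last r) : ℂ))) (Q j) := by
  unfold GP
  rw [Polynomial.eval_finsetSum]
  refine Finset.sum_congr rfl fun j _ => ?_
  rw [Polynomial.eval_mul, eval_line]
  congr 1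
  unfold fac
  rw [Polynomial.eval_add, Polynomial.eval_mul, Polynomial.eval_C, Polynomial.eval_C,
    Polynomial.eval_X, mul_comm]

theorem natDegree_GP {N n s R r : ℕ} (lam : Fin (r + 1) → ℂ) (b : Fin R → ℂ)
    (Q : Fin s → MvPolynomial (Fin N ⊕ Fin n) ℂ) (z : Fin N → Qa) (y : Fin s × Fin R → Qa)
    (γ : Fin s → Qa) (M : Fin n × Fin (r + 1) → Qa) :
    (GP lam b Q z y γ M).natDegree ≤ 1 + Finset.univ.sup fun j => (Q j).totalDegree := by
  unfold GP
  refine Polynomial.natDegree_sum_le_of_forall_le _ _ fun j _ => ?_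
  refine Polynomial.natDegree_mul_le.trans (add_le_add ?_ ?_)
  · unfold fac
    refine (Polynomial.natDegree_add_le _ _).trans (max_le ?_ ?_)
    · rw [Polynomial.natDegree_C]
      exact Nat.zero_le _
    · exact (Polynomial.natDegree_C_mul_le _ _).trans Polynomial.natDegree_X_le
  · refine le_trans (natDegree_aeval_le _ (fun t => ?_) (Q j))
      (Finset.le_sup (f := fun j => (Q j).totalDegree) (Finset.mem_univ j))
    rcases t with l | i
    · simp only [FQ.lpt, Sum.elim_inl, Polynomial.natDegree_C, zero_le]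
    · simp only [FQ.lpt, Sum.elim_inr, pt_lamS]
      refine (Polynomial.natDegree_add_le _ _).trans (max_le ?_ ?_)
      · rw [Polynomial.natDegree_C]
        exact Nat.zero_le _
      · exact (Polynomial.natDegree_C_mul_le _ _).trans Polynomial.natDegree_X_le

/-- The column lemma for independent values. -/
theorem colI {m n N s r : ℕ} (hm : N + n + 2 * s + (n + s) * (n + s - 1) < m)
    (lam : Fin (r + 1) → ℂ) (hlam : LinearIndependent Qa lam) (hlog : ∀ j, lam j ∈ Lsp)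
    (x : ℕ → Fin m → ℚ) (U : Ultrafilter (Fin m → ℚ)) (hU : Gen U)
    (Q : Fin s → MvPolynomial (Fin N ⊕ Fin n) ℂ) :
    ∀ᶠ a in (U : Filter (Fin m → ℚ)), ∀ (z : Fin N → Qa) (M : Fin n × Fin (r + 1) → Qa)
      (l : Fin s → ℂ),
      (∀ i s, ∑ j : Fin (r + 1), M (i, j) * ((Function.update x r a j s : ℚ) : Qa) = 0) →
      (∀ j, l j ∈ Lt) →
      LinearIndependent Qa (fun j =>
        eval (Sum.elim (fun l => (z l : ℂ)) (TV.pt lam M)) (Q j)) →
      ∑ j, l j * eval (Sum.elim (fun l => (z l : ℂ)) (TV.pt lam M)) (Q j) = 0 →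
      ∃ γ : Fin s → Qa, ∀ σ : ℂ, ∑ j, (l j + σ * (γ j : ℂ)) *
        eval (Sum.elim (fun l => (z l : ℂ))
          (fun i => TV.pt lam M i + σ * (M (i, Fin.last r) : ℂ))) (Q j) = 0 := by
  classical
  obtain ⟨L0, hL0f, hL0t, hL0⟩ := exists_L0 (N := N) lam Q
  let bb := finBasis Qa L0
  obtain ⟨b, hb⟩ : ∃ b : Fin (finrank Qa L0) → ℂ, b = fun e => (bb e : ℂ) := ⟨_, rfl⟩
  have hbt : ∀ e, b e ∈ Lt := by
    intro e
    rw [hb]
    exact hL0t (bb e).2
  have hfirst := all_of_choice (Y := (Fin N → Qa) × (Fin n × Fin (r + 1) → Qa) ×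
      (Fin s × Fin (finrank Qa L0) → Qa)) U
    (fun a p => (∀ i s, ∑ j : Fin (r + 1), p.2.1 (i, j) *
      ((Function.update x r a j s : ℚ) : Qa) = 0) ∧
      (GP lam b Q p.1 p.2.2 0 p.2.1).coeff 0 = 0)
    (fun _ p => ∃ γ : Fin s → Qa, (GP lam b Q p.1 p.2.2 γ p.2.1).coeff 1 = 0)
    (fun p hp => first_aux hm lam hlam hlog x U hU b hbt Q (fun a => (p a).1)
      (fun a => (p a).2.1) (fun a => (p a).2.2) (hp.mono fun a ha => ha.1)
      (hp.mono fun a ha => ha.2))
  have hnext := fun q : ℕ => all_of_choice (Y := (Fin N → Qa) × (Fin n × Fin (r + 1) → Qa) ×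
      (Fin s × Fin (finrank Qa L0) → Qa) × (Fin s → Qa)) U
    (fun a p => (∀ i s, ∑ j : Fin (r + 1), p.2.1 (i, j) *
      ((Function.update x r a j s : ℚ) : Qa) = 0) ∧
      LinearIndependent Qa (fun j => (aeval (lpt lam p.1 p.2.1) (Q j)).coeff 0) ∧
      (GP lam b Q p.1 p.2.2.1 p.2.2.2 p.2.1).coeff 0 = 0 ∧
      (GP lam b Q p.1 p.2.2.1 p.2.2.2 p.2.1).coeff 1 = 0 ∧
      (GP lam b Q p.1 p.2.2.1 p.2.2.2 p.2.1).coeff q = 0)
    (fun _ p => (GP lam b Q p.1 p.2.2.1 p.2.2.2 p.2.1).coeff (q + 1) = 0)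
    (fun p hp => next_aux hm lam hlam hlog x U hU b hbt Q q (fun a => (p a).1)
      (fun a => (p a).2.1) (fun a => (p a).2.2.1) (fun a => (p a).2.2.2)
      (hp.mono fun a ha => ha.1) (hp.mono fun a ha => ha.2.1) (hp.mono fun a ha => ha.2.2.1)
      (hp.mono fun a ha => ha.2.2.2.1) (hp.mono fun a ha => ha.2.2.2.2))
  obtain ⟨D, hD⟩ : ∃ D, D = 1 + Finset.univ.sup fun j => (Q j).totalDegree := ⟨_, rfl⟩
  have hnext' := (Filter.eventually_all_finset (Finset.range (D + 1))).2 fun q _ => hnext q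
  filter_upwards [hfirst, hnext'] with a ha1 ha2 z M l hM hl hind h0
  have hlL := hL0 z M l hl hind h0
  obtain ⟨y, hy⟩ : ∃ y : Fin s × Fin (finrank Qa L0) → Qa, y = fun p =>
    bb.repr ⟨l p.1, hlL p.1⟩ p.2 := ⟨_, rfl⟩
  have hly : ∀ j, TV.pt b y j = l j := by
    intro j
    have h1 := congrArg L0.subtype (bb.sum_repr ⟨l j, hlL j⟩)
    rw [map_sum] at h1
    simp only [map_smul, Submodule.subtype_apply] at h1
    unfold TV.pt
    rw [hy, hb]
    exact h1
  have hc0 : ∀ γ : Fin s → Qa, (GP lam b Q z y γ M).coeff 0 = 0 := by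
    intro γ
    rw [Polynomial.coeff_zero_eq_eval_zero, eval_GP]
    simp only [zero_mul, add_zero, hly]
    exact h0
  obtain ⟨γ, hγ⟩ := ha1 (z, M, y) ⟨hM, hc0 0⟩
  refine ⟨γ, ?_⟩
  have hind' : LinearIndependent Qa (fun j => (aeval (lpt lam z M) (Q j)).coeff 0) := by
    have h1 : (fun j => (aeval (lpt lam z M) (Q j)).coeff 0) = fun j =>
        eval (Sum.elim (fun l => (z l : ℂ)) (TV.pt lam M)) (Q j) := by
      funext j
      rw [Polynomial.coeff_zero_eq_eval_zero, eval_line]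
      simp only [zero_mul, add_zero]
    rw [h1]
    exact hind
  have hall : ∀ q, (GP lam b Q z y γ M).coeff (q + 1) = 0 := by
    intro q
    induction q with
    | zero => exact hγ
    | succ q ih =>
      by_cases hq : q + 1 < D + 1
      · exact ha2 (q + 1) (Finset.mem_range.2 hq) (z, M, y, γ) ⟨hM, hind', hc0 γ, hγ, ih⟩
      · refine Polynomial.coeff_eq_zero_of_natDegree_lt ?_
        refine lt_of_le_of_lt (natDegree_GP lam b Q z y γ M) ?_
        rw [← hD]
        omega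
  have hzero : GP lam b Q z y γ M = 0 := by
    ext q
    rw [Polynomial.coeff_zero]
    rcases q with _ | q
    · exact hc0 γ
    · exact hall q
  intro σ
  have h1 := eval_GP lam b Q z y γ M σ
  rw [hzero, Polynomial.eval_zero] at h1
  rw [h1]
  simp only [hly]

/-- The family of all the combinations. -/
noncomputable def PC {N n s : ℕ} (Q : Fin s → MvPolynomial (Fin N ⊕ Fin n) ℂ) :
    MvPolynomial (Fin (N + s) ⊕ Fin n) ℂ :=
  ∑ j, X (Sum.inl (Fin.natAdd N j)) * rename (Sum.map (Fin.castAdd s) id) (Q j)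

theorem eval_PC {N n s : ℕ} (Q : Fin s → MvPolynomial (Fin N ⊕ Fin n) ℂ) (z : Fin N → Qa)
    (q : Fin s → Qa) (w : Fin n → ℂ) :
    eval (Sum.elim (fun l => ((Fin.append z q l : Qa) : ℂ)) w) (PC Q) =
      ∑ j, (q j : ℂ) * eval (Sum.elim (fun l => (z l : ℂ)) w) (Q j) := by
  unfold PC
  rw [map_sum]
  refine Finset.sum_congr rfl fun j _ => ?_
  rw [map_mul, eval_X, Sum.elim_inl, Fin.append_right, eval_rename]
  congr 3
  funext t
  rcases t with l | i
  · simp only [Function.comp_apply, Sum.map_inl, Sum.elim_inl, Fin.append_left]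
  · simp only [Function.comp_apply, Sum.map_inr, Sum.elim_inr, id]

/-- The column lemma. -/
theorem colS {m n N s r : ℕ} (hm : N + n + 2 * s + (n + s) * (n + s - 1) < m)
    (hm' : N + s + n * (n + 2) + 1 ≤ m)
    (lam : Fin (r + 1) → ℂ) (hlam : LinearIndependent Qa lam) (hlog : ∀ j, lam j ∈ Lsp)
    (x : ℕ → Fin m → ℚ) (U : Ultrafilter (Fin m → ℚ)) (hU : Gen U)
    (Q : Fin s → MvPolynomial (Fin N ⊕ Fin n) ℂ) :
    ∀ᶠ a in (U : Filter (Fin m → ℚ)), ∀ (z : Fin N → Qa) (M : Fin n × Fin (r + 1) → Qa)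
      (l : Fin s → ℂ),
      (∀ i s, ∑ j : Fin (r + 1), M (i, j) * ((Function.update x r a j s : ℚ) : Qa) = 0) →
      (∀ j, l j ∈ Lt) →
      ∑ j, l j * eval (Sum.elim (fun l => (z l : ℂ)) (TV.pt lam M)) (Q j) = 0 →
      ∃ γ : Fin s → Qa, ∀ σ : ℂ, ∑ j, (l j + σ * (γ j : ℂ)) *
        eval (Sum.elim (fun l => (z l : ℂ))
          (fun i => TV.pt lam M i + σ * (M (i, Fin.last r) : ℂ))) (Q j) = 0 := by
  classical
  have h1 : ∀ (s' : Fin (s + 1)) (ι : Fin (s' : ℕ) ↪ Fin s), ∀ᶠ a in (U : Filter (Fin m → ℚ)),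
      ∀ (z : Fin N → Qa) (M : Fin n × Fin (r + 1) → Qa) (l : Fin (s' : ℕ) → ℂ),
      (∀ i s, ∑ j : Fin (r + 1), M (i, j) * ((Function.update x r a j s : ℚ) : Qa) = 0) →
      (∀ j, l j ∈ Lt) →
      LinearIndependent Qa (fun j =>
        eval (Sum.elim (fun l => (z l : ℂ)) (TV.pt lam M)) (Q (ι j))) →
      ∑ j, l j * eval (Sum.elim (fun l => (z l : ℂ)) (TV.pt lam M)) (Q (ι j)) = 0 →
      ∃ γ : Fin (s' : ℕ) → Qa, ∀ σ : ℂ, ∑ j, (l j + σ * (γ j : ℂ)) *
        eval (Sum.elim (fun l => (z l : ℂ))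
          (fun i => TV.pt lam M i + σ * (M (i, Fin.last r) : ℂ))) (Q (ι j)) = 0 := by
    intro s' ι
    have hs : (s' : ℕ) ≤ s := Nat.le_of_lt_succ s'.2
    have hm2 : N + n + 2 * (s' : ℕ) + (n + s') * (n + s' - 1) < m := by
      refine lt_of_le_of_lt ?_ hm
      have h3 : (n + s') * (n + s' - 1) ≤ (n + s) * (n + s - 1) :=
        Nat.mul_le_mul (by omega) (by omega)
      omega
    exact colI hm2 lam hlam hlog x U hU (fun j => Q (ι j))
  have h2 := Filter.eventually_all.2 fun s' => Filter.eventually_all.2 fun ι => h1 s' ι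
  filter_upwards [h2, FQ.col hm' lam hlam hlog x U hU (PC Q)] with a ha hcol z M l hM hl h0
  obtain ⟨h, hh⟩ : ∃ h : Fin s → ℂ, h = fun j =>
    eval (Sum.elim (fun l => (z l : ℂ)) (TV.pt lam M)) (Q j) := ⟨_, rfl⟩
  obtain ⟨s', ι, A, hli, hA⟩ := FR.exists_basis h
  have hs' := FR.le_of_emb ι
  -- the relations persist on the line
  have hrel : ∀ σ : ℂ, FR.Rels h (fun j => eval (Sum.elim (fun l => (z l : ℂ))
      (fun i => TV.pt lam M i + σ * (M (i, Fin.last r) : ℂ))) (Q j)) := by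
    intro σ q hq
    have h4 := hcol (Fin.append z q) M hM (by
      rw [eval_PC, ← hq, hh]
      exact Finset.sum_congr rfl fun j _ => rfl) σ
    rw [eval_PC] at h4
    rw [← h4]
    exact Finset.sum_congr rfl fun j _ => rfl
  have hA' : ∀ σ : ℂ, ∀ i, eval (Sum.elim (fun l => (z l : ℂ))
      (fun i => TV.pt lam M i + σ * (M (i, Fin.last r) : ℂ))) (Q i) = ∑ j, A i j •
        eval (Sum.elim (fun l => (z l : ℂ))
          (fun i => TV.pt lam M i + σ * (M (i, Fin.last r) : ℂ))) (Q (ι j)) :=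
    fun σ i => hA _ (hrel σ) i
  have hswap : ∀ (σ : ℂ) (k : Fin s → ℂ), ∑ i, k i * eval (Sum.elim (fun l => (z l : ℂ))
      (fun i => TV.pt lam M i + σ * (M (i, Fin.last r) : ℂ))) (Q i) =
      ∑ j, (∑ i, A i j • k i) * eval (Sum.elim (fun l => (z l : ℂ))
          (fun i => TV.pt lam M i + σ * (M (i, Fin.last r) : ℂ))) (Q (ι j)) := by
    intro σ k
    have e1 : ∀ i, k i * eval (Sum.elim (fun l => (z l : ℂ))
        (fun i => TV.pt lam M i + σ * (M (i, Fin.last r) : ℂ))) (Q i) =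
        ∑ j, (A i j • k i) * eval (Sum.elim (fun l => (z l : ℂ))
          (fun i => TV.pt lam M i + σ * (M (i, Fin.last r) : ℂ))) (Q (ι j)) := by
      intro i
      rw [hA' σ i, Finset.mul_sum]
      refine Finset.sum_congr rfl fun j _ => ?_
      rw [smul_eq, smul_eq]
      ring
    rw [Finset.sum_congr rfl fun i _ => e1 i, Finset.sum_comm]
    exact Finset.sum_congr rfl fun j _ => by rw [Finset.sum_mul]
  have h0' : ∑ j, l j * eval (Sum.elim (fun l => (z l : ℂ))
      (fun i => TV.pt lam M i + (0 : ℂ) * (M (i, Fin.last r) : ℂ))) (Q j) = 0 := by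
    simp only [zero_mul, add_zero]
    exact h0
  obtain ⟨γ, hγ⟩ := ha ⟨s', by omega⟩ ι z M (fun j => ∑ i, A i j • l i) hM
    (fun j => Submodule.sum_mem _ fun i _ => Lt.smul_mem _ (hl i)) (by
      rw [hh] at hli
      exact hli) (by
      rw [hswap] at h0'
      simpa only [zero_mul, add_zero] using h0')
  refine ⟨Function.extend ι γ 0, fun σ => ?_⟩
  have e2 : ∀ j, (l j + σ * ((Function.extend ι γ 0 j : Qa) : ℂ)) *
      eval (Sum.elim (fun l => (z l : ℂ))
        (fun i => TV.pt lam M i + σ * (M (i, Fin.last r) : ℂ))) (Q j) =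
      l j * eval (Sum.elim (fun l => (z l : ℂ))
        (fun i => TV.pt lam M i + σ * (M (i, Fin.last r) : ℂ))) (Q j) +
      σ * ((Function.extend ι γ 0 j : Qa) : ℂ) * eval (Sum.elim (fun l => (z l : ℂ))
        (fun i => TV.pt lam M i + σ * (M (i, Fin.last r) : ℂ))) (Q j) := fun j => by ring
  rw [Finset.sum_congr rfl fun j _ => e2 j, Finset.sum_add_distrib, hswap]
  have e3 : ∑ j, σ * ((Function.extend ι γ 0 j : Qa) : ℂ) * eval (Sum.elim (fun l => (z l : ℂ))
        (fun i => TV.pt lam M i + σ * (M (i, Fin.last r) : ℂ))) (Q j) =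
      ∑ j, σ * (γ j : ℂ) * eval (Sum.elim (fun l => (z l : ℂ))
        (fun i => TV.pt lam M i + σ * (M (i, Fin.last r) : ℂ))) (Q (ι j)) := by
    have h5 : ∑ j, σ * ((Function.extend ι γ 0 j : Qa) : ℂ) *
          eval (Sum.elim (fun l => (z l : ℂ))
          (fun i => TV.pt lam M i + σ * (M (i, Fin.last r) : ℂ))) (Q j) =
        ∑ j ∈ Finset.univ.map ι, σ * ((Function.extend ι γ 0 j : Qa) : ℂ) *
          eval (Sum.elim (fun l => (z l : ℂ))
          (fun i => TV.pt lam M i + σ * (M (i, Fin.last r) : ℂ))) (Q j) := by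
      symm
      refine Finset.sum_subset (Finset.subset_univ _) fun i _ hi => ?_
      have h6 : ¬ ∃ j, ι j = i := by
        rintro ⟨j, rfl⟩
        exact hi (Finset.mem_map_of_mem ι (Finset.mem_univ j))
      rw [Function.extend_apply' _ _ _ h6]
      simp
    rw [h5, Finset.sum_map]
    refine Finset.sum_congr rfl fun j _ => ?_
    rw [ι.injective.extend_apply]
  rw [e3, ← Finset.sum_add_distrib, ← hγ σ]
  exact Finset.sum_congr rfl fun j _ => by ring

end MP60829e.SY
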