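import Pool.Agent.Lib.MP_60829e_nt.SY.Desc

/-! # Linear relations with unknown logarithms, for arbitrary tuples -/

open MvPolynomial Module

namespace MP60829e.SY

open MP60829e.ST (Qa Lsp Lt)
open MP60829e.FC (Xr Gen)
open MP60829e.FQ (pw)
open MP60829e.FL (AlgVal Lsp_disjoint_one algVal_PT)
open MP60829e.FR (PT za eval_PT exists_basis Rels kp ep kp_eq le_of_emb)

private theorem eval_ext' {σ τ : Type} (P : MvPolynomial σ ℂ) (f : σ → MvPolynomial τ ℂ)
    (x : τ → ℂ) : eval x (aeval f P) = eval (fun s => eval x (f s)) P := by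
  induction P using MvPolynomial.induction_on with
  | C a => rw [algHom_C, eval_C, MvPolynomial.algebraMap_eq, eval_C]
  | add p q hp hq => rw [map_add, map_add, map_add, hp, hq]
  | mul_X p i hp => rw [map_mul, map_mul, map_mul, hp, aeval_X, eval_X]

/-- A polynomial which vanishes at all algebraic points is zero. -/
theorem eq_zero_of_alg {k : ℕ} (F : MvPolynomial (Fin k) ℂ)
    (h : ∀ y : Fin k → Qa, eval (fun i => (y i : ℂ)) F = 0) : F = 0 := by
  have hinj : Function.Injective (fun q : Qa => (q : ℂ)) := Subtype.val_injective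
  refine MvPolynomial.funext_set (fun _ => Set.range fun q : Qa => (q : ℂ))
    (fun _ => Set.infinite_range_of_injective hinj) ?_
  intro x hx
  have hx' : ∀ i, ∃ q : Qa, (q : ℂ) = x i := fun i => hx i (Set.mem_univ i)
  choose q hq using hx'
  have h1 := h q
  have h2 : (fun i => (q i : ℂ)) = x := funext hq
  rw [h2] at h1
  rw [h1, map_zero]

/-- The polynomial with the parameters fixed. -/
noncomputable def SP {N k : ℕ} (z : Fin N → Qa) (P : MvPolynomial (Fin N ⊕ Fin k) ℂ) :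
    MvPolynomial (Fin k) ℂ := aeval (Sum.elim (fun l => C (z l : ℂ)) X) P

theorem eval_SP {N k : ℕ} (z : Fin N → Qa) (P : MvPolynomial (Fin N ⊕ Fin k) ℂ)
    (v : Fin k → ℂ) : eval v (SP z P) = eval (Sum.elim (fun l => (z l : ℂ)) v) P := by
  unfold SP
  rw [eval_ext']
  congr 2
  funext t
  rcases t with l | i
  · rw [Sum.elim_inl, Sum.elim_inl, eval_C]
  · rw [Sum.elim_inr, Sum.elim_inr, eval_X]

/-- For `n' = n`, `ι` the identity and `c = 0`, at all complex points. -/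
theorem goodS_main {N n s : ℕ} {Q : Fin s → MvPolynomial (Fin N ⊕ Fin n) ℂ}
    {X' V : Submodule Qa ℂ} (h : GoodS Q X' V) (z : Fin N → Qa) (w : Fin n → ℂ)
    (hw : ∀ j, w j ∈ X') (hli : LinearIndependent Qa w)
    (hd : Disjoint (Submodule.span Qa (Set.range w)) V) (l : Fin s → ℂ) (hl : ∀ j, l j ∈ Lt)
    (h0 : ∑ j, l j * eval (Sum.elim (fun l => (z l : ℂ)) w) (Q j) = 0) :
    ∃ (a : Fin s → Qa) (α : Fin s → Fin n → Qa), ∀ v : Fin n → ℂ,
      ∑ j, ((a j : ℂ) + ∑ i, (α j i : ℂ) * v i) *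
        eval (Sum.elim (fun l => (z l : ℂ)) v) (Q j) = 0 ∧
      ∑ j, (l j - (a j : ℂ) - ∑ i, (α j i : ℂ) * w i) *
        eval (Sum.elim (fun l => (z l : ℂ)) v) (Q j) = 0 := by
  have h1 : ∀ y : Fin n → ℂ, pw z 0 (Function.Embedding.refl _) y =
      Sum.elim (fun l => (z l : ℂ)) y := by
    intro y
    unfold FQ.pw
    congr 1
    funext i
    have h2 := (Function.Embedding.refl (Fin n)).injective.extend_apply y 0 i
    rw [Function.Embedding.refl_apply] at h2
    rw [Pi.zero_apply, ZeroMemClass.coe_zero, zero_add, h2]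
  obtain ⟨a, α, h2⟩ := h n (Function.Embedding.refl _) z 0 (fun _ => rfl) w hw hli hd l hl
    (by simp only [h1]; exact h0)
  unfold pwa at h2
  simp only [h1] at h2
  refine ⟨a, α, fun v => ⟨?_, ?_⟩⟩
  · have h3 : ∑ j, (C (a j : ℂ) + ∑ i, C (α j i : ℂ) * X i) * SP z (Q j) = 0 := by
      refine eq_zero_of_alg _ fun y => ?_
      rw [← (h2 y).1, map_sum]
      refine Finset.sum_congr rfl fun j _ => ?_
      rw [map_mul, map_add, map_sum, eval_C, eval_SP]
      congr 2
      exact Finset.sum_congr rfl fun i _ => by rw [map_mul, eval_C, eval_X]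
    have h4 := congrArg (eval v) h3
    rw [map_zero, map_sum] at h4
    rw [← h4]
    refine Finset.sum_congr rfl fun j _ => ?_
    rw [map_mul, map_add, map_sum, eval_C, eval_SP]
    congr 2
    exact Finset.sum_congr rfl fun i _ => by rw [map_mul, eval_C, eval_X]
  · have h3 : ∑ j, C (l j - (a j : ℂ) - ∑ i, (α j i : ℂ) * w i) * SP z (Q j) = 0 := by
      refine eq_zero_of_alg _ fun y => ?_
      rw [← (h2 y).2, map_sum]
      refine Finset.sum_congr rfl fun j _ => ?_
      rw [map_mul, eval_C, eval_SP]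
    have h4 := congrArg (eval v) h3
    rw [map_zero, map_sum] at h4
    rw [← h4]
    refine Finset.sum_congr rfl fun j _ => ?_
    rw [map_mul, eval_C, eval_SP]

/-- The property for all the restrictions to subspaces. -/
def GoodSR {N n s : ℕ} (Q : Fin s → MvPolynomial (Fin N ⊕ Fin n) ℂ)
    (X V : Submodule Qa ℂ) : Prop :=
  ∀ (n' : ℕ) (ι : Fin n' ↪ Fin n), GoodS (fun j => PT ι (Q j)) X V

theorem goodSR_base {N n s : ℕ} (Q : Fin s → MvPolynomial (Fin N ⊕ Fin n) ℂ)
    (X : Submodule Qa ℂ) : GoodSR Q X X := fun _ ι => goodS_base (fun j => PT ι (Q j)) X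

theorem arithSR {N n n' s m : ℕ} (hn : n' ≤ n) (hm : N + (n + s) ^ 2 + s + 1 ≤ m) :
    N + (n - n') * n' + (n' + s) ^ 2 + s + 1 ≤ m := by
  obtain ⟨k, rfl⟩ := Nat.exists_eq_add_of_le hn
  refine le_trans ?_ hm
  rw [Nat.add_sub_cancel_left]
  nlinarith [Nat.zero_le (k * k), Nat.zero_le (k * n'), Nat.zero_le (k * s)]

theorem goodSR_step {N n s m r : ℕ} (hs : 1 ≤ s) (hm : N + (n + s) ^ 2 + s + 1 ≤ m)
    (lam : ℕ → ℂ)
    (hlam : LinearIndependent Qa lam) (hlog : ∀ j, lam j ∈ Lsp) (x : ℕ → Fin m → ℚ)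
    (U : Ultrafilter (Fin m → ℚ)) (hU : Gen U) (Q : Fin s → MvPolynomial (Fin N ⊕ Fin n) ℂ)
    (hQ : ∀ j, AlgVal (Submodule.span Qa {(1 : ℂ)}) (Q j))
    (V : Submodule Qa ℂ) (h : GoodSR Q (Xr lam x r) V) :
    ∀ᶠ a in (U : Filter (Fin m → ℚ)), GoodSR Q (Xr lam (Function.update x r a) (r + 1)) V := by
  have h1 : ∀ (n' : Fin (n + 1)) (ι : Fin (n' : ℕ) ↪ Fin n),
      ∀ᶠ a in (U : Filter (Fin m → ℚ)),
        GoodS (fun j => PT ι (Q j)) (Xr lam (Function.update x r a) (r + 1)) V := by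
    intro n' ι
    refine goodS_step hs ?_ lam hlam hlog x U hU (fun j => PT ι (Q j))
      (fun j => algVal_PT ι (hQ j)) V (h n' ι)
    rw [kp_eq]
    exact arithSR (le_of_emb ι) hm
  have h2 : ∀ᶠ a in (U : Filter (Fin m → ℚ)), ∀ (n' : Fin (n + 1)) (ι : Fin (n' : ℕ) ↪ Fin n),
      GoodS (fun j => PT ι (Q j)) (Xr lam (Function.update x r a) (r + 1)) V :=
    Filter.eventually_all.2 fun n' => Filter.eventually_all.2 fun ι => h1 n' ι
  filter_upwards [h2] with a ha n' ι
  have h3 := le_of_emb ι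
  exact ha ⟨n', by omega⟩ ι

/-- From independent to arbitrary tuples. -/
theorem goodSR_main {N n s : ℕ} {Q : Fin s → MvPolynomial (Fin N ⊕ Fin n) ℂ}
    {X V : Submodule Qa ℂ} (h : GoodSR Q X V) (z : Fin N → Qa)
    (w : Fin n → ℂ) (hw : ∀ j, w j ∈ X)
    (hd : Disjoint (Submodule.span Qa (Set.range w)) V)
    (l : Fin s → ℂ) (hl : ∀ j, l j ∈ Lt)
    (h0 : ∑ j, l j * eval (Sum.elim (fun l => (z l : ℂ)) w) (Q j) = 0) :
    ∃ (a : Fin s → Qa) (α : Fin s → Fin n → Qa), ∀ x : Fin n → ℂ, Rels w x →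
      ∑ j, ((a j : ℂ) + ∑ i, (α j i : ℂ) * x i) *
        eval (Sum.elim (fun l => (z l : ℂ)) x) (Q j) = 0 ∧
      ∑ j, (l j - (a j : ℂ) - ∑ i, (α j i : ℂ) * w i) *
        eval (Sum.elim (fun l => (z l : ℂ)) x) (Q j) = 0 := by
  classical
  obtain ⟨n', ι, B, hli, hB⟩ := exists_basis w
  have hsp : Submodule.span Qa (Set.range fun j => w (ι j)) ≤
      Submodule.span Qa (Set.range w) := by
    refine Submodule.span_mono ?_
    rintro _ ⟨j, rfl⟩
    exact ⟨ι j, rfl⟩
  obtain ⟨a, α, hα⟩ := goodS_main (h n' ι) (za ι z B) (fun j => w (ι j)) (fun j => hw _) hli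
    (hd.mono_left hsp) l hl (by
      simp only [eval_PT ι _ z B w (hB w fun q hq => hq)]
      exact h0)
  have hext : ∀ (j : Fin s) (x : Fin n → ℂ),
      ∑ i, ((Function.extend ι (α j) 0 i : Qa) : ℂ) * x i = ∑ i, (α j i : ℂ) * x (ι i) := by
    intro j x
    have h1 : ∑ i, ((Function.extend ι (α j) 0 i : Qa) : ℂ) * x i =
        ∑ i ∈ Finset.univ.map ι, ((Function.extend ι (α j) 0 i : Qa) : ℂ) * x i := by
      symm
      refine Finset.sum_subset (Finset.subset_univ _) fun i _ hi => ?_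
      have h2 : ¬ ∃ j, ι j = i := by
        rintro ⟨j, rfl⟩
        exact hi (Finset.mem_map_of_mem ι (Finset.mem_univ j))
      rw [Function.extend_apply' _ _ _ h2]
      simp
    rw [h1, Finset.sum_map]
    refine Finset.sum_congr rfl fun j _ => ?_
    rw [ι.injective.extend_apply]
  refine ⟨a, fun j => Function.extend ι (α j) 0, fun x hx => ?_⟩
  obtain ⟨h1, h2⟩ := hα fun j => x (ι j)
  simp only [eval_PT ι _ z B x (hB x hx)] at h1 h2
  simp only [hext]
  exact ⟨h1, h2⟩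

end MP60829e.SY
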