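import Pool.Agent.Lib.MP_60829e_nt.FQ.Mult

/-! # The relation with unknown logarithms at a generic point -/

open MvPolynomial Module

namespace MP60829e.SY

open MP60829e.ST (Qa Lsp Lt)
open MP60829e.FC (Xr Gen)
open MP60829e.FQ (forms' ev_rename' dv_rename' ev_eq_eval' dv_eq_sum' lpt lamS GS ev_GS dv_GS
  pt_lamS smul_poly)

/-- The generic point for an arbitrary relation, with an arbitrary finite type of parameters. -/
theorem gpoint {κ : Type} [Fintype κ] {R : Type} [CommRing R] [Algebra Qa R] {m n r : ℕ}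
    (U : Ultrafilter (Fin m → ℚ)) (hU : Gen U) (L : Submodule Qa R)
    (G : MvPolynomial (κ ⊕ (Fin n × Fin (r + 1))) R)
    (x : ℕ → Fin m → ℚ) (M : (Fin m → ℚ) → Fin n × Fin (r + 1) → Qa)
    (z : (Fin m → ℚ) → κ → Qa)
    (h1 : ∀ᶠ a in (U : Filter (Fin m → ℚ)), ∀ i s,
      ∑ j : Fin (r + 1), M a (i, j) * ((Function.update x r a j s : ℚ) : Qa) = 0)
    (h2 : ∀ᶠ a in (U : Filter (Fin m → ℚ)), TV.ev (Sum.elim (z a) (M a)) G ∈ L) :
    ∀ᶠ a in (U : Filter (Fin m → ℚ)), ∀ ψ : Fin m → Qa,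
      ∃ (T : Fin n × Fin (r + 1) → Qa) (h : κ → Qa),
        (∀ i s, ∑ j : Fin (r + 1), T (i, j) * ((Function.update x r a j s : ℚ) : Qa) =
          -(ψ s * M a (i, Fin.last r))) ∧
        TV.dv (Sum.elim (z a) (M a)) (Sum.elim h T) G ∈ L := by
  classical
  obtain ⟨q, P', hP1, hP2⟩ := forms' L G
  -- the equations
  let P : (Fin n × Fin m) ⊕ Fin q → MvPolynomial (Fin m ⊕ (κ ⊕ (Fin n × Fin (r + 1)))) Qa :=
    Sum.elim (fun p => ∑ j : Fin r, C ((x j p.2 : ℚ) : Qa) *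
        X (Sum.inr (Sum.inr (p.1, j.castSucc))) +
        X (Sum.inl p.2) * X (Sum.inr (Sum.inr (p.1, Fin.last r))))
      (fun j => rename Sum.inr (P' j))
  have hup : ∀ (a : Fin m → ℚ) (c : Fin (r + 1) → Qa) (s : Fin m),
      ∑ j : Fin (r + 1), c j * ((Function.update x r a j s : ℚ) : Qa) =
        ∑ j : Fin r, ((x j s : ℚ) : Qa) * c j.castSucc + ((a s : ℚ) : Qa) * c (Fin.last r) := by
    intro a c s
    rw [Fin.sum_univ_castSucc]
    congr 1
    · refine Finset.sum_congr rfl fun j _ => ?_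
      rw [Function.update_of_ne (by
        rw [Fin.val_castSucc]
        exact (Fin.is_lt j).ne), Fin.val_castSucc, mul_comm]
    · rw [Fin.val_last, Function.update_self, mul_comm]
  have h3 : ∀ᶠ a in (U : Filter (Fin m → ℚ)), ∀ j,
      eval (Sum.elim (fun s => ((a s : ℚ) : Qa)) (Sum.elim (z a) (M a))) (P j) = 0 := by
    filter_upwards [h1, h2] with a ha1 ha2
    rintro (⟨i, s⟩ | j)
    · have h4 := ha1 i s
      rw [hup a (fun j => M a (i, j)) s] at h4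
      rw [← h4]
      simp only [P, Sum.elim_inl, map_add, map_sum, map_mul, eval_C, eval_X, Sum.elim_inr]
    · have h5 := hP1 _ ha2 j
      rw [← h5]
      simp only [P, Sum.elim_inr]
      rw [← ev_eq_eval', ev_rename', ev_eq_eval']
      rfl
  have h4 := FC.smooth U hU P (fun a => Sum.elim (z a) (M a)) h3
  filter_upwards [h4] with a ha ψ
  obtain ⟨η, hη⟩ := ha ψ
  have hη' : ∀ j, TV.dv (Sum.elim (fun s => ((a s : ℚ) : Qa)) (Sum.elim (z a) (M a)))
      (Sum.elim ψ η) (P j) = 0 := by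
    intro j
    rw [dv_eq_sum', Fintype.sum_sum_type]
    exact hη j
  refine ⟨fun p => η (Sum.inr p), fun j => η (Sum.inl j), fun i s => ?_, ?_⟩
  · have h5 := hη' (Sum.inl (i, s))
    simp only [P, Sum.elim_inl] at h5
    rw [TV.dv_add, TV.dv_sum, TV.dv_mul, TV.dv_X, TV.dv_X, TV.ev_X, TV.ev_X] at h5
    simp only [TV.dv_mul, TV.dv_C, TV.ev_C, TV.dv_X, Sum.elim_inl, Sum.elim_inr, zero_mul,
      zero_add, Algebra.algebraMap_self, RingHom.id_apply] at h5
    rw [hup a (fun j => η (Sum.inr (i, j))) s]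
    linear_combination h5
  · have h5 : TV.dv (Sum.elim (z a) (M a)) η G ∈ L := by
      refine hP2 _ _ fun j => ?_
      have h6 := hη' (Sum.inr j)
      simp only [P, Sum.elim_inr] at h6
      rw [dv_rename', dv_eq_sum'] at h6
      exact h6
    have h6 : η = Sum.elim (fun j => η (Sum.inl j)) (fun p => η (Sum.inr p)) := by
      funext t
      rcases t with t | t <;> rfl
    rw [h6] at h5
    exact h5

/-- The parameters: `z`, the coordinates of the `l_j`, the slopes. -/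
abbrev Kap (N s R : ℕ) := Fin N ⊕ ((Fin s × Fin R) ⊕ Fin s)

/-- The inclusion of the variables. -/
def rho {N n s R r : ℕ} : Fin N ⊕ (Fin n × Fin (r + 1)) → Kap N s R ⊕ (Fin n × Fin (r + 1)) :=
  Sum.map Sum.inl id

/-- The relation `∑ (l_j + σ γ_j) Q_j (z, w + σ d)`, a polynomial in `σ` over the polynomials in
all the parameters. -/
noncomputable def GG {N n s R r : ℕ} (lam : Fin (r + 1) → ℂ) (b : Fin R → ℂ)
    (Q : Fin s → MvPolynomial (Fin N ⊕ Fin n) ℂ) :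
    MvPolynomial (Kap N s R ⊕ (Fin n × Fin (r + 1))) (Polynomial ℂ) :=
  ∑ j, ((∑ e, C (Polynomial.C (b e)) * X (Sum.inl (Sum.inr (Sum.inl (j, e))))) +
    C Polynomial.X * X (Sum.inl (Sum.inr (Sum.inr j)))) * rename rho (GS lam (Q j))

/-- The factor `l_j + σ γ_j`. -/
noncomputable def fac {s R : ℕ} (b : Fin R → ℂ) (y : Fin s × Fin R → Qa) (γ : Fin s → Qa)
    (j : Fin s) : Polynomial ℂ :=
  Polynomial.C (TV.pt b y j) + Polynomial.C (γ j : ℂ) * Polynomial.X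

theorem ev_fac {N n s R r : ℕ} (b : Fin R → ℂ) (z : Fin N → Qa) (y : Fin s × Fin R → Qa)
    (γ : Fin s → Qa) (M : Fin n × Fin (r + 1) → Qa) (j : Fin s) :
    TV.ev (Sum.elim (Sum.elim z (Sum.elim y γ)) M)
      ((∑ e, C (Polynomial.C (b e)) * X (Sum.inl (Sum.inr (Sum.inl (j, e))))) +
        C Polynomial.X * X (Sum.inl (Sum.inr (Sum.inr j))) :
          MvPolynomial (Kap N s R ⊕ (Fin n × Fin (r + 1))) (Polynomial ℂ)) = fac b y γ j := by
  unfold fac
  rw [map_add, map_sum, TV.ev_mul, TV.ev_C, TV.ev_X, mul_comm]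
  congr 1
  unfold TV.pt
  rw [map_sum]
  refine Finset.sum_congr rfl fun e _ => ?_
  rw [TV.ev_mul, TV.ev_C, TV.ev_X, Algebra.smul_def, Polynomial.C_mul, mul_comm]
  rfl

theorem dv_fac {N n s R r : ℕ} (b : Fin R → ℂ) (z ζ : Fin N → Qa) (y η : Fin s × Fin R → Qa)
    (γ δ : Fin s → Qa) (M T : Fin n × Fin (r + 1) → Qa) (j : Fin s) :
    TV.dv (Sum.elim (Sum.elim z (Sum.elim y γ)) M) (Sum.elim (Sum.elim ζ (Sum.elim η δ)) T)
      ((∑ e, C (Polynomial.C (b e)) * X (Sum.inl (Sum.inr (Sum.inl (j, e))))) +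
        C Polynomial.X * X (Sum.inl (Sum.inr (Sum.inr j))) :
          MvPolynomial (Kap N s R ⊕ (Fin n × Fin (r + 1))) (Polynomial ℂ)) = fac b η δ j := by
  unfold fac
  rw [TV.dv_add, TV.dv_sum, TV.dv_mul, TV.dv_C, TV.ev_C, TV.dv_X, zero_mul, zero_add, mul_comm]
  congr 1
  unfold TV.pt
  rw [map_sum]
  refine Finset.sum_congr rfl fun e _ => ?_
  rw [TV.dv_mul, TV.dv_C, TV.ev_C, TV.dv_X, zero_mul, zero_add, Algebra.smul_def,
    Polynomial.C_mul, mul_comm]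
  rfl

/-- The polynomial on the line. -/
noncomputable def GP {N n s R r : ℕ} (lam : Fin (r + 1) → ℂ) (b : Fin R → ℂ)
    (Q : Fin s → MvPolynomial (Fin N ⊕ Fin n) ℂ) (z : Fin N → Qa) (y : Fin s × Fin R → Qa)
    (γ : Fin s → Qa) (M : Fin n × Fin (r + 1) → Qa) : Polynomial ℂ :=
  ∑ j, fac b y γ j * aeval (lpt lam z M) (Q j)

theorem rho_comp {N n s R r : ℕ} (z : Fin N → Qa) (w : (Fin s × Fin R) ⊕ Fin s → Qa)
    (M : Fin n × Fin (r + 1) → Qa) :
    (fun t => Sum.elim (Sum.elim z w) M (rho (s := s) (R := R) t)) = Sum.elim z M := by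
  funext t
  rcases t with l | p <;> rfl

theorem ev_GG {N n s R r : ℕ} (lam : Fin (r + 1) → ℂ) (b : Fin R → ℂ)
    (Q : Fin s → MvPolynomial (Fin N ⊕ Fin n) ℂ) (z : Fin N → Qa) (y : Fin s × Fin R → Qa)
    (γ : Fin s → Qa) (M : Fin n × Fin (r + 1) → Qa) :
    TV.ev (Sum.elim (Sum.elim z (Sum.elim y γ)) M) (GG lam b Q) = GP lam b Q z y γ M := by
  unfold GG GP
  rw [map_sum]
  refine Finset.sum_congr rfl fun j _ => ?_
  rw [TV.ev_mul, ev_fac, ev_rename', rho_comp, ev_GS]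

theorem dv_GG {N n s R r : ℕ} (lam : Fin (r + 1) → ℂ) (b : Fin R → ℂ)
    (Q : Fin s → MvPolynomial (Fin N ⊕ Fin n) ℂ) (z ζ : Fin N → Qa) (y η : Fin s × Fin R → Qa)
    (γ δ : Fin s → Qa) (M T : Fin n × Fin (r + 1) → Qa) :
    TV.dv (Sum.elim (Sum.elim z (Sum.elim y γ)) M) (Sum.elim (Sum.elim ζ (Sum.elim η δ)) T)
      (GG lam b Q) = ∑ j, (fac b η δ j * aeval (lpt lam z M) (Q j) + fac b y γ j *
        (∑ l, aeval (lpt lam z M) (pderiv (Sum.inl l) (Q j)) * Polynomial.C (ζ l : ℂ) +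
          ∑ i, aeval (lpt lam z M) (pderiv (Sum.inr i) (Q j)) * TV.pt (lamS lam) T i)) := by
  unfold GG
  rw [TV.dv_sum]
  refine Finset.sum_congr rfl fun j _ => ?_
  rw [TV.dv_mul, ev_fac, dv_fac, ev_rename', dv_rename', rho_comp, rho_comp, ev_GS, dv_GS]

end MP60829e.SY
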