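import Pool.Agent.Lib.MP_60829e_nt.SY.Fin
import Pool.Agent.Lib.MP_60829e_nt.SY.Pt
import Pool.Agent.Lib.MP_60829e_nt.FL.Col

/-! # The column lemma for independent values -/

open MvPolynomial Module

namespace MP60829e.SY

open MP60829e.ST (Qa Lsp Lt)
open MP60829e.FC (Xr Gen)
open MP60829e.FQ (lpt lamS pt_lamS derivative_aeval Lq mem_Lq eval_line natDegree_aeval_le)

theorem phi_C_mul (φ : Polynomial ℂ →ₗ[ℂ] ℂ) (c : ℂ) (f : Polynomial ℂ) :
    φ (Polynomial.C c * f) = c * φ f := by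
  rw [← Polynomial.smul_eq_C_mul, map_smul, smul_eq_mul]

/-- The counting argument for a linear functional of the relation. -/
theorem cnt_phi {n N s R r m : ℕ} (hm : N + n + 2 * s + (n + s) * (n + s - 1) < m)
    (lam : Fin (r + 1) → ℂ) (hlam : LinearIndependent Qa lam) (hlog : ∀ j, lam j ∈ Lsp)
    (x : Fin (r + 1) → Fin m → ℚ) (b : Fin R → ℂ) (hb : ∀ e, b e ∈ Lt)
    (A : Fin s → Polynomial ℂ) (Gr : Fin n → Polynomial ℂ) (Pr : Fin N → Polynomial ℂ)
    (c : Fin n → Qa) (φ : Polynomial ℂ →ₗ[ℂ] ℂ)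
    (H : ∀ ψ : Fin m → Qa, ∃ (T : Fin n × Fin (r + 1) → Qa) (ζ : Fin N → Qa)
      (η : Fin s × Fin R → Qa) (δ : Fin s → Qa),
      (∀ i s, ∑ j, T (i, j) * ((x j s : ℚ) : Qa) = -(ψ s * c i)) ∧
      φ (∑ j, fac b η δ j * A j + ∑ l, Pr l * Polynomial.C (ζ l : ℂ) +
        ∑ i, Gr i * (Polynomial.C (TV.pt lam T i) +
          Polynomial.C (T (i, Fin.last r) : ℂ) * Polynomial.X)) = 0) :
    ∃ γ : Fin s → Qa, ∑ i, c i • φ (Gr i) + ∑ j, γ j • φ (A j) = 0 := by
  classical
  by_contra hcon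
  let R' : Submodule Qa (Fin n → Qa) :=
    { carrier := {v | ∃ v' : Fin s → Qa, ∑ i, v i • φ (Gr i) + ∑ j, v' j • φ (A j) = 0}
      zero_mem' := ⟨0, by simp⟩
      add_mem' := by
        rintro v w ⟨v', h⟩ ⟨w', h'⟩
        refine ⟨v' + w', ?_⟩
        simp only [Pi.add_apply, add_smul, Finset.sum_add_distrib]
        linear_combination h + h'
      smul_mem' := by
        rintro t v ⟨v', h⟩
        refine ⟨t • v', ?_⟩
        simp only [Pi.smul_apply, smul_eq_mul, mul_smul, ← Finset.smul_sum]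
        rw [← smul_add, h, smul_zero] }
  have hcR : c ∉ R' := fun h => hcon h
  obtain ⟨u, hu, huc⟩ := FC.exists_sep R' c hcR
  obtain ⟨hfin, hle⟩ := finrank_Ts (fun i => φ (Gr i)) (fun j => φ (A j)) u
    (fun v v' hv => hu v ⟨v', hv⟩)
  obtain ⟨pq, hpq⟩ : ∃ pq : (Fin N ⊕ Fin n) ⊕ (Fin s ⊕ Fin s) → ℂ, pq = Sum.elim
      (Sum.elim (fun l => φ (Pr l)) (fun i => φ (Polynomial.X * Gr i)))
      (Sum.elim (fun j => φ (Polynomial.X * A j)) (fun j => φ (A j))) := ⟨_, rfl⟩
  have hVfin : FiniteDimensional Qa (Submodule.span Qa (Set.range pq)) :=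
    FiniteDimensional.span_of_finite Qa (Set.finite_range pq)
  have hV : finrank Qa (Submodule.span Qa (Set.range pq)) ≤ (N + n) + (s + s) := by
    have := finrank_range_le_card (R := Qa) pq
    rw [Fintype.card_sum, Fintype.card_sum, Fintype.card_sum, Fintype.card_fin,
      Fintype.card_fin, Fintype.card_fin] at this
    exact this
  have h3 := count lam hlam hlog x (fun i => φ (Gr i)) (fun j => φ (A j)) u c huc
    (Submodule.span Qa (Set.range pq)) hV hfin hle (fun ψ => by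
      obtain ⟨T, ζ, η, δ, hT, hd⟩ := H ψ
      have h4 : ∀ j, TV.pt b η j ∈ Lt := fun j =>
        Submodule.sum_mem _ fun e _ => Lt.smul_mem _ (hb e)
      choose κ S hS hκS using fun j => mem_Lt' (h4 j)
      refine ⟨T, S, (∑ l, ζ l • φ (Pr l) + ∑ i, T (i, Fin.last r) • φ (Polynomial.X * Gr i)) +
        (∑ j, δ j • φ (Polynomial.X * A j) + ∑ j, κ j • φ (A j)), ?_, hS, hT, ?_⟩
      · refine Submodule.add_mem _ (Submodule.add_mem _
          (Submodule.sum_mem _ fun l _ => Submodule.smul_mem _ _ ?_)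
          (Submodule.sum_mem _ fun i _ => Submodule.smul_mem _ _ ?_))
          (Submodule.add_mem _
          (Submodule.sum_mem _ fun l _ => Submodule.smul_mem _ _ ?_)
          (Submodule.sum_mem _ fun i _ => Submodule.smul_mem _ _ ?_))
        · refine Submodule.subset_span ⟨Sum.inl (Sum.inl l), ?_⟩
          rw [hpq]
          rfl
        · refine Submodule.subset_span ⟨Sum.inl (Sum.inr i), ?_⟩
          rw [hpq]
          rfl
        · refine Submodule.subset_span ⟨Sum.inr (Sum.inl l), ?_⟩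
          rw [hpq]
          rfl
        · refine Submodule.subset_span ⟨Sum.inr (Sum.inr i), ?_⟩
          rw [hpq]
          rfl
      · have e1 : ∀ j, φ (fac b η δ j * A j) =
            φ (A j) * S j + κ j • φ (A j) + δ j • φ (Polynomial.X * A j) := by
          intro j
          unfold fac
          rw [add_mul, map_add, phi_C_mul, mul_assoc, phi_C_mul, hκS j, smul_eq, smul_eq]
          ring
        have e2 : ∀ l, φ (Pr l * Polynomial.C (ζ l : ℂ)) = ζ l • φ (Pr l) := by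
          intro l
          rw [mul_comm, phi_C_mul, smul_eq]
        have e3 : ∀ i, φ (Gr i * (Polynomial.C (TV.pt lam T i) +
            Polynomial.C (T (i, Fin.last r) : ℂ) * Polynomial.X)) =
            φ (Gr i) * TV.pt lam T i + T (i, Fin.last r) • φ (Polynomial.X * Gr i) := by
          intro i
          have e4 : Gr i * (Polynomial.C (TV.pt lam T i) +
              Polynomial.C (T (i, Fin.last r) : ℂ) * Polynomial.X) =
              Polynomial.C (TV.pt lam T i) * Gr i +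
              Polynomial.C (T (i, Fin.last r) : ℂ) * (Polynomial.X * Gr i) := by ring
          rw [e4, map_add, phi_C_mul, phi_C_mul, smul_eq]
          ring
        rw [map_add, map_add, map_sum, map_sum, map_sum, Finset.sum_congr rfl fun j _ => e1 j,
          Finset.sum_congr rfl fun l _ => e2 l, Finset.sum_congr rfl fun i _ => e3 i,
          Finset.sum_add_distrib, Finset.sum_add_distrib, Finset.sum_add_distrib] at hd
        rw [← hd]
        ring)
  omega

/-- The `X`-gradient. -/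
noncomputable def Gi {N n s R r : ℕ} (lam : Fin (r + 1) → ℂ) (b : Fin R → ℂ)
    (Q : Fin s → MvPolynomial (Fin N ⊕ Fin n) ℂ) (z : Fin N → Qa) (y : Fin s × Fin R → Qa)
    (γ : Fin s → Qa) (M : Fin n × Fin (r + 1) → Qa) (i : Fin n) : Polynomial ℂ :=
  ∑ j, fac b y γ j * aeval (lpt lam z M) (pderiv (Sum.inr i) (Q j))

/-- The `Z`-gradient. -/
noncomputable def Pi' {N n s R r : ℕ} (lam : Fin (r + 1) → ℂ) (b : Fin R → ℂ)
    (Q : Fin s → MvPolynomial (Fin N ⊕ Fin n) ℂ) (z : Fin N → Qa) (y : Fin s × Fin R → Qa)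
    (γ : Fin s → Qa) (M : Fin n × Fin (r + 1) → Qa) (l : Fin N) : Polynomial ℂ :=
  ∑ j, fac b y γ j * aeval (lpt lam z M) (pderiv (Sum.inl l) (Q j))

theorem dv_GG' {N n s R r : ℕ} (lam : Fin (r + 1) → ℂ) (b : Fin R → ℂ)
    (Q : Fin s → MvPolynomial (Fin N ⊕ Fin n) ℂ) (z ζ : Fin N → Qa) (y η : Fin s × Fin R → Qa)
    (γ δ : Fin s → Qa) (M T : Fin n × Fin (r + 1) → Qa) :
    TV.dv (Sum.elim (Sum.elim z (Sum.elim y γ)) M) (Sum.elim (Sum.elim ζ (Sum.elim η δ)) T)
      (GG lam b Q) = ∑ j, fac b η δ j * aeval (lpt lam z M) (Q j) +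
        ∑ l, Pi' lam b Q z y γ M l * Polynomial.C (ζ l : ℂ) +
        ∑ i, Gi lam b Q z y γ M i * (Polynomial.C (TV.pt lam T i) +
          Polynomial.C (T (i, Fin.last r) : ℂ) * Polynomial.X) := by
  rw [dv_GG]
  have e1 : ∀ l, Pi' lam b Q z y γ M l * Polynomial.C (ζ l : ℂ) = ∑ j, fac b y γ j *
      (aeval (lpt lam z M) (pderiv (Sum.inl l) (Q j)) * Polynomial.C (ζ l : ℂ)) := by
    intro l
    unfold Pi'
    rw [Finset.sum_mul]
    exact Finset.sum_congr rfl fun j _ => mul_assoc _ _ _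
  have e2 : ∀ i, Gi lam b Q z y γ M i * (Polynomial.C (TV.pt lam T i) +
      Polynomial.C (T (i, Fin.last r) : ℂ) * Polynomial.X) = ∑ j, fac b y γ j *
      (aeval (lpt lam z M) (pderiv (Sum.inr i) (Q j)) * TV.pt (lamS lam) T i) := by
    intro i
    unfold Gi
    rw [Finset.sum_mul, ← pt_lamS]
    exact Finset.sum_congr rfl fun j _ => mul_assoc _ _ _
  rw [Finset.sum_congr rfl fun l _ => e1 l, Finset.sum_congr rfl fun i _ => e2 i,
    Finset.sum_comm, Finset.sum_comm (s := (Finset.univ : Finset (Fin n))),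
    ← Finset.sum_add_distrib, ← Finset.sum_add_distrib]
  refine Finset.sum_congr rfl fun j _ => ?_
  rw [mul_add, Finset.mul_sum, Finset.mul_sum, add_assoc]

/-- The derivative along the line. -/
theorem derivative_GP {N n s R r : ℕ} (lam : Fin (r + 1) → ℂ) (b : Fin R → ℂ)
    (Q : Fin s → MvPolynomial (Fin N ⊕ Fin n) ℂ) (z : Fin N → Qa) (y : Fin s × Fin R → Qa)
    (γ : Fin s → Qa) (M : Fin n × Fin (r + 1) → Qa) :
    Polynomial.derivative (GP lam b Q z y γ M) =
      ∑ j, Polynomial.C (γ j : ℂ) * aeval (lpt lam z M) (Q j) +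
        ∑ i, Polynomial.C (M (i, Fin.last r) : ℂ) * Gi lam b Q z y γ M i := by
  unfold GP Gi
  rw [map_sum]
  have h1 : ∀ j, Polynomial.derivative (aeval (lpt lam z M) (Q j)) =
      ∑ i, aeval (lpt lam z M) (pderiv (Sum.inr i) (Q j)) *
        Polynomial.C (M (i, Fin.last r) : ℂ) := by
    intro j
    rw [derivative_aeval, Fintype.sum_sum_type]
    have h2 : ∀ l : Fin N, aeval (lpt lam z M) (pderiv (Sum.inl l) (Q j)) *
        Polynomial.derivative (lpt lam z M (Sum.inl l)) = 0 := by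
      intro l
      simp only [FQ.lpt, Sum.elim_inl, Polynomial.derivative_C, mul_zero]
    have h4 : ∀ i, Polynomial.derivative (lpt (N := N) lam z M (Sum.inr i)) =
        Polynomial.C (M (i, Fin.last r) : ℂ) := by
      intro i
      simp only [FQ.lpt, Sum.elim_inr, pt_lamS, Polynomial.derivative_add,
        Polynomial.derivative_C, Polynomial.derivative_C_mul, Polynomial.derivative_X,
        zero_add, mul_one]
    rw [Finset.sum_eq_zero fun l _ => h2 l, zero_add]
    exact Finset.sum_congr rfl fun i _ => by rw [h4]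
  have h2 : ∀ j, Polynomial.derivative (fac b y γ j) = Polynomial.C (γ j : ℂ) := by
    intro j
    unfold fac
    rw [Polynomial.derivative_add, Polynomial.derivative_C, zero_add,
      Polynomial.derivative_C_mul, Polynomial.derivative_X, mul_one]
  simp only [Polynomial.derivative_mul, h1, h2, Finset.sum_add_distrib, Finset.mul_sum]
  congr 1
  rw [Finset.sum_comm]
  refine Finset.sum_congr rfl fun i _ => Finset.sum_congr rfl fun j _ => ?_
  ring

theorem sum_coeff_GP {N n s R r : ℕ} (lam : Fin (r + 1) → ℂ) (b : Fin R → ℂ)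
    (Q : Fin s → MvPolynomial (Fin N ⊕ Fin n) ℂ) (z : Fin N → Qa) (y : Fin s × Fin R → Qa)
    (γ : Fin s → Qa) (M : Fin n × Fin (r + 1) → Qa) (q : ℕ) :
    ∑ i, M (i, Fin.last r) • (Gi lam b Q z y γ M i).coeff q +
      ∑ j, γ j • (aeval (lpt lam z M) (Q j)).coeff q =
      (GP lam b Q z y γ M).coeff (q + 1) * ((q : ℂ) + 1) := by
  rw [← Polynomial.coeff_derivative, derivative_GP, Polynomial.coeff_add,
    Polynomial.finsetSum_coeff, Polynomial.finsetSum_coeff, add_comm]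
  congr 1
  · refine Finset.sum_congr rfl fun i _ => ?_
    rw [Polynomial.coeff_C_mul, smul_eq]
  · refine Finset.sum_congr rfl fun i _ => ?_
    rw [Polynomial.coeff_C_mul, smul_eq]

/-- The first coefficient, for chosen points. -/
theorem first_aux {m n N s R r : ℕ} (hm : N + n + 2 * s + (n + s) * (n + s - 1) < m)
    (lam : Fin (r + 1) → ℂ) (hlam : LinearIndependent Qa lam) (hlog : ∀ j, lam j ∈ Lsp)
    (x : ℕ → Fin m → ℚ) (U : Ultrafilter (Fin m → ℚ)) (hU : Gen U) (b : Fin R → ℂ)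
    (hb : ∀ e, b e ∈ Lt) (Q : Fin s → MvPolynomial (Fin N ⊕ Fin n) ℂ)
    (z : (Fin m → ℚ) → Fin N → Qa) (M : (Fin m → ℚ) → Fin n × Fin (r + 1) → Qa)
    (y : (Fin m → ℚ) → Fin s × Fin R → Qa)
    (h1 : ∀ᶠ a in (U : Filter (Fin m → ℚ)), ∀ i s,
      ∑ j : Fin (r + 1), M a (i, j) * ((Function.update x r a j s : ℚ) : Qa) = 0)
    (h2 : ∀ᶠ a in (U : Filter (Fin m → ℚ)), (GP lam b Q (z a) (y a) 0 (M a)).coeff 0 = 0) :
    ∀ᶠ a in (U : Filter (Fin m → ℚ)), ∃ γ : Fin s → Qa,
      (GP lam b Q (z a) (y a) γ (M a)).coeff 1 = 0 := by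
  have h3 := gpoint U hU (Lq 0) (GG lam b Q) x M
    (fun a => Sum.elim (z a) (Sum.elim (y a) 0)) h1 (h2.mono fun a ha => by
      rw [ev_GG]
      exact ha)
  filter_upwards [h3] with a ha
  obtain ⟨γ, hγ⟩ := cnt_phi hm lam hlam hlog (fun j => Function.update x r a j) b hb
    (fun j => aeval (lpt lam (z a) (M a)) (Q j))
    (Gi lam b Q (z a) (y a) 0 (M a)) (Pi' lam b Q (z a) (y a) 0 (M a))
    (fun i => M a (i, Fin.last r)) (Polynomial.lcoeff ℂ 0) (fun ψ => by
      obtain ⟨T, h, hT, hd⟩ := ha ψ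
      refine ⟨T, fun l => h (Sum.inl l), fun p => h (Sum.inr (Sum.inl p)),
        fun j => h (Sum.inr (Sum.inr j)), hT, ?_⟩
      have h6 : h = Sum.elim (fun l => h (Sum.inl l)) (Sum.elim (fun p => h (Sum.inr (Sum.inl p)))
          (fun j => h (Sum.inr (Sum.inr j)))) := by
        funext t
        rcases t with t | t | t <;> rfl
      rw [h6, dv_GG', mem_Lq] at hd
      rw [Polynomial.lcoeff_apply]
      exact hd)
  refine ⟨γ, ?_⟩
  simp only [Polynomial.lcoeff_apply] at hγ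
  have h4 := sum_coeff_GP lam b Q (z a) (y a) γ (M a) 0
  have h5 : ∀ i, (Gi lam b Q (z a) (y a) γ (M a) i).coeff 0 =
      (Gi lam b Q (z a) (y a) 0 (M a) i).coeff 0 := by
    intro i
    unfold Gi
    rw [Polynomial.finsetSum_coeff, Polynomial.finsetSum_coeff]
    refine Finset.sum_congr rfl fun j _ => ?_
    rw [Polynomial.mul_coeff_zero, Polynomial.mul_coeff_zero]
    congr 1
    unfold fac
    simp
  simp only [h5] at h4
  rw [hγ] at h4
  simpa using h4.symm

/-- The next coefficient, for chosen points. -/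
theorem next_aux {m n N s R r : ℕ} (hm : N + n + 2 * s + (n + s) * (n + s - 1) < m)
    (lam : Fin (r + 1) → ℂ) (hlam : LinearIndependent Qa lam) (hlog : ∀ j, lam j ∈ Lsp)
    (x : ℕ → Fin m → ℚ) (U : Ultrafilter (Fin m → ℚ)) (hU : Gen U) (b : Fin R → ℂ)
    (hb : ∀ e, b e ∈ Lt) (Q : Fin s → MvPolynomial (Fin N ⊕ Fin n) ℂ) (q : ℕ)
    (z : (Fin m → ℚ) → Fin N → Qa) (M : (Fin m → ℚ) → Fin n × Fin (r + 1) → Qa)
    (y : (Fin m → ℚ) → Fin s × Fin R → Qa) (γ : (Fin m → ℚ) → Fin s → Qa)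
    (h1 : ∀ᶠ a in (U : Filter (Fin m → ℚ)), ∀ i s,
      ∑ j : Fin (r + 1), M a (i, j) * ((Function.update x r a j s : ℚ) : Qa) = 0)
    (hind : ∀ᶠ a in (U : Filter (Fin m → ℚ)), LinearIndependent Qa
      (fun j => (aeval (lpt lam (z a) (M a)) (Q j)).coeff 0))
    (h20 : ∀ᶠ a in (U : Filter (Fin m → ℚ)), (GP lam b Q (z a) (y a) (γ a) (M a)).coeff 0 = 0)
    (h21 : ∀ᶠ a in (U : Filter (Fin m → ℚ)), (GP lam b Q (z a) (y a) (γ a) (M a)).coeff 1 = 0)
    (h2q : ∀ᶠ a in (U : Filter (Fin m → ℚ)), (GP lam b Q (z a) (y a) (γ a) (M a)).coeff q = 0) :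
    ∀ᶠ a in (U : Filter (Fin m → ℚ)), (GP lam b Q (z a) (y a) (γ a) (M a)).coeff (q + 1) = 0 := by
  classical
  have h3 := gpoint U hU (Lq 0 ⊓ Lq q) (GG lam b Q) x M
    (fun a => Sum.elim (z a) (Sum.elim (y a) (γ a))) h1 (by
      filter_upwards [h20, h2q] with a ha hb
      rw [ev_GG]
      exact ⟨ha, hb⟩)
  filter_upwards [h3, hind, h21] with a ha hai ha1
  obtain ⟨X0, hX0⟩ : ∃ X0 : (Fin s → Qa) → ℂ, X0 = fun γ' =>
    ∑ i, M a (i, Fin.last r) • (Gi lam b Q (z a) (y a) (γ a) (M a) i).coeff 0 +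
      ∑ j, γ' j • (aeval (lpt lam (z a) (M a)) (Q j)).coeff 0 := ⟨_, rfl⟩
  obtain ⟨Xq, hXq⟩ : ∃ Xq : (Fin s → Qa) → ℂ, Xq = fun γ' =>
    ∑ i, M a (i, Fin.last r) • (Gi lam b Q (z a) (y a) (γ a) (M a) i).coeff q +
      ∑ j, γ' j • (aeval (lpt lam (z a) (M a)) (Q j)).coeff q := ⟨_, rfl⟩
  obtain ⟨τ, hτ⟩ : ∃ τ : ℂ, ∀ γ' : Fin s → Qa, τ ≠ -X0 γ' / Xq γ' := by
    by_contra hcon
    push Not at hcon
    have hQ : Countable Qa := (Algebraic.countable ℚ ℂ).mono (fun z hz =>
      mem_algebraicClosure_iff.mp hz) |>.to_subtype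
    have h4 : (Set.range fun γ' : Fin s → Qa => -X0 γ' / Xq γ').Countable :=
      Set.countable_range _
    have h5 : (Set.range fun γ' : Fin s → Qa => -X0 γ' / Xq γ') = Set.univ := by
      rw [Set.eq_univ_iff_forall]
      intro τ
      obtain ⟨γ', h6⟩ := hcon τ
      exact ⟨γ', h6.symm⟩
    rw [h5] at h4
    exact _root_.not_countable_complex h4
  obtain ⟨γ', hγ'⟩ := cnt_phi hm lam hlam hlog (fun j => Function.update x r a j) b hb
    (fun j => aeval (lpt lam (z a) (M a)) (Q j))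
    (Gi lam b Q (z a) (y a) (γ a) (M a)) (Pi' lam b Q (z a) (y a) (γ a) (M a))
    (fun i => M a (i, Fin.last r)) (Polynomial.lcoeff ℂ 0 + τ • Polynomial.lcoeff ℂ q)
    (fun ψ => by
      obtain ⟨T, h, hT, hd⟩ := ha ψ
      refine ⟨T, fun l => h (Sum.inl l), fun p => h (Sum.inr (Sum.inl p)),
        fun j => h (Sum.inr (Sum.inr j)), hT, ?_⟩
      have h6 : h = Sum.elim (fun l => h (Sum.inl l)) (Sum.elim (fun p => h (Sum.inr (Sum.inl p)))
          (fun j => h (Sum.inr (Sum.inr j)))) := by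
        funext t
        rcases t with t | t | t <;> rfl
      rw [h6, dv_GG'] at hd
      obtain ⟨hd0, hdq⟩ := Submodule.mem_inf.1 hd
      rw [mem_Lq] at hd0 hdq
      rw [LinearMap.add_apply, LinearMap.smul_apply, Polynomial.lcoeff_apply,
        Polynomial.lcoeff_apply, hd0, hdq, smul_zero, add_zero])
  have h5 : X0 γ' + τ * Xq γ' = 0 := by
    rw [← hγ', hX0, hXq]
    simp only [LinearMap.add_apply, LinearMap.smul_apply, Polynomial.lcoeff_apply, smul_add,
      Finset.sum_add_distrib, smul_eq_mul, smul_eq, mul_add, Finset.mul_sum]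
    have e1 : ∀ (c g : ℂ), τ * (c * g) = c * (τ * g) := fun c g => by ring
    simp only [e1]
    ring
  have h6 : Xq γ' = 0 := by
    by_contra h7
    apply hτ γ'
    rw [eq_div_iff h7]
    linear_combination h5
  rw [h6, mul_zero, add_zero] at h5
  have h7 : X0 (γ a) = 0 := by
    rw [hX0]
    have h8 := sum_coeff_GP lam b Q (z a) (y a) (γ a) (M a) 0
    rw [zero_add, ha1, zero_mul] at h8
    exact h8
  have h8 : γ' = γ a := by
    funext j
    have h9 : ∑ j, (γ' j - γ a j) • (aeval (lpt lam (z a) (M a)) (Q j)).coeff 0 = 0 := by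
      simp only [sub_smul, Finset.sum_sub_distrib]
      rw [hX0] at h5 h7
      linear_combination h5 - h7
    exact sub_eq_zero.1 ((Fintype.linearIndependent_iff.1 hai) _ h9 j)
  have h9 := sum_coeff_GP lam b Q (z a) (y a) (γ a) (M a) q
  rw [h8, hXq] at h6
  have h6' : ∑ i, M a (i, Fin.last r) • (Gi lam b Q (z a) (y a) (γ a) (M a) i).coeff q +
      ∑ j, γ a j • (aeval (lpt lam (z a) (M a)) (Q j)).coeff q = 0 := h6
  rw [h6'] at h9
  exact (mul_eq_zero.1 h9.symm).resolve_right (Nat.cast_add_one_ne_zero q)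

end MP60829e.SY
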