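import Pool.Agent.Lib.MP_60829e_nt.SY.Dep

/-! # Linear relations with unknown logarithms: the form with the affine hull -/

open MvPolynomial Module

namespace MP60829e.SY

open MP60829e.ST (Qa Lsp Lt)
open MP60829e.FC (Xr Gen)
open MP60829e.FL (AlgVal algVal_PT)
open MP60829e.FR (PT za eval_PT exists_basis Rels kp ep kp_eq le_of_emb)

/-- The affine relations over `Qa` of `(w, l)` hold for `(x, y)`. -/
def Hull {n s : ℕ} (w : Fin n → ℂ) (l : Fin s → ℂ) (x : Fin n → ℂ) (y : Fin s → ℂ) : Prop :=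
  ∀ (q0 : Qa) (q : Fin n → Qa) (p : Fin s → Qa),
    (q0 : ℂ) + ∑ i, (q i : ℂ) * w i + ∑ j, (p j : ℂ) * l j = 0 →
      (q0 : ℂ) + ∑ i, (q i : ℂ) * x i + ∑ j, (p j : ℂ) * y j = 0

theorem Hull.rels {n s : ℕ} {w : Fin n → ℂ} {l : Fin s → ℂ} {x : Fin n → ℂ} {y : Fin s → ℂ}
    (h : Hull w l x y) : Rels w x := by
  intro q hq
  have h1 := h 0 q 0 (by
    simp only [ZeroMemClass.coe_zero, Pi.zero_apply, zero_mul, Finset.sum_const_zero, add_zero,
      zero_add]
    exact hq)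
  simp only [ZeroMemClass.coe_zero, Pi.zero_apply, zero_mul, Finset.sum_const_zero, add_zero,
    zero_add] at h1
  exact h1

theorem algVal_eval {N n : ℕ} {P : MvPolynomial (Fin N ⊕ Fin n) ℂ}
    (hP : AlgVal (Submodule.span Qa {(1 : ℂ)}) P) (z : Fin N → Qa) (y : Fin n → Qa) :
    ∃ e : Qa, (e : ℂ) = eval (Sum.elim (fun l => (z l : ℂ)) fun i => (y i : ℂ)) P := by
  obtain ⟨e, he⟩ := Submodule.mem_span_singleton.1 (hP (Sum.elim z y))
  rw [smul_eq, mul_one] at he
  refine ⟨e, ?_⟩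
  rw [he]
  congr 2
  funext t
  rcases t with l | i <;> rfl

/-- The form with the affine hull, for all points. -/
theorem hull_indep {N n s : ℕ} {Q : Fin s → MvPolynomial (Fin N ⊕ Fin n) ℂ}
    (hQ : ∀ j, AlgVal (Submodule.span Qa {(1 : ℂ)}) (Q j)) (z : Fin N → Qa) (w : Fin n → ℂ)
    (l : Fin s → ℂ) (a : Fin s → Qa) (α : Fin s → Fin n → Qa)
    (h : ∀ v : Fin n → ℂ,
      ∑ j, ((a j : ℂ) + ∑ i, (α j i : ℂ) * v i) *
        eval (Sum.elim (fun l => (z l : ℂ)) v) (Q j) = 0 ∧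
      ∑ j, (l j - (a j : ℂ) - ∑ i, (α j i : ℂ) * w i) *
        eval (Sum.elim (fun l => (z l : ℂ)) v) (Q j) = 0)
    (v : Fin n → ℂ) (y : Fin s → ℂ) (hy : Hull w l v y) :
    ∑ j, y j * eval (Sum.elim (fun l => (z l : ℂ)) v) (Q j) = 0 := by
  classical
  obtain ⟨μ, hμ⟩ : ∃ μ : Fin s → ℂ, μ = fun j => l j - (a j : ℂ) - ∑ i, (α j i : ℂ) * w i :=
    ⟨_, rfl⟩
  obtain ⟨μ', hμ'⟩ : ∃ μ' : Fin s → ℂ, μ' = fun j => y j - (a j : ℂ) - ∑ i, (α j i : ℂ) * v i :=
    ⟨_, rfl⟩
  have hexp : ∀ (κ : Fin s → Qa) (l' : Fin s → ℂ) (w' : Fin n → ℂ),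
      ∑ j, κ j • (l' j - (a j : ℂ) - ∑ i, (α j i : ℂ) * w' i) =
        ((-∑ j, κ j * a j : Qa) : ℂ) + ∑ i, ((-∑ j, κ j * α j i : Qa) : ℂ) * w' i +
          ∑ j, (κ j : ℂ) * l' j := by
    intro κ l' w'
    push_cast
    simp only [smul_eq, mul_sub, Finset.sum_sub_distrib, neg_mul, Finset.sum_neg_distrib,
      Finset.sum_mul, Finset.mul_sum]
    rw [Finset.sum_comm (s := (Finset.univ : Finset (Fin n)))]
    simp only [mul_assoc]
    ring
  have hrel : Rels μ μ' := by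
    intro κ hκ
    rw [hμ, hexp] at hκ
    rw [hμ', hexp]
    exact hy _ _ _ hκ
  obtain ⟨s', ι, B, hli, hB⟩ := exists_basis μ
  have hE : ∀ e, ∑ j, C (B j e : ℂ) * SP z (Q j) = 0 := by
    intro e
    refine eq_zero_of_alg _ fun y0 => ?_
    choose c hc using fun j => algVal_eval (hQ j) z y0
    have h1 : ∑ e, (∑ j, B j e * c j) • μ (ι e) = 0 := by
      have h2 := (h fun i => (y0 i : ℂ)).2
      have h3 : ∀ j, (l j - (a j : ℂ) - ∑ i, (α j i : ℂ) * w i) =
          ∑ e, B j e • μ (ι e) := by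
        intro j
        have h4 := hB μ (fun q hq => hq) j
        rw [← h4, hμ]
      simp only [h3, ← hc] at h2
      rw [← h2]
      simp only [smul_eq, Finset.sum_mul]
      rw [Finset.sum_comm]
      refine Finset.sum_congr rfl fun e _ => ?_
      push_cast
      rw [Finset.sum_mul]
      exact Finset.sum_congr rfl fun j _ => by ring
    have h5 := (Fintype.linearIndependent_iff.1 hli) _ h1 e
    have h6 : ((∑ j, B j e * c j : Qa) : ℂ) = 0 := by
      rw [h5]
      rfl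
    push_cast at h6
    rw [map_sum, ← h6]
    refine Finset.sum_congr rfl fun j _ => ?_
    rw [map_mul, eval_C, eval_SP, hc]
  have hEv : ∀ e, ∑ j, (B j e : ℂ) * eval (Sum.elim (fun l => (z l : ℂ)) v) (Q j) = 0 := by
    intro e
    have h1 := congrArg (eval v) (hE e)
    rw [map_zero, map_sum] at h1
    rw [← h1]
    refine Finset.sum_congr rfl fun j _ => ?_
    rw [map_mul, eval_C, eval_SP]
  have h2 : ∑ j, μ' j * eval (Sum.elim (fun l => (z l : ℂ)) v) (Q j) = 0 := by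
    have h3 : ∀ j, μ' j * eval (Sum.elim (fun l => (z l : ℂ)) v) (Q j) =
        ∑ e, μ' (ι e) * ((B j e : ℂ) * eval (Sum.elim (fun l => (z l : ℂ)) v) (Q j)) := by
      intro j
      rw [hB μ' hrel j, Finset.sum_mul]
      refine Finset.sum_congr rfl fun e _ => ?_
      rw [smul_eq]
      ring
    rw [Finset.sum_congr rfl fun j _ => h3 j, Finset.sum_comm]
    refine Finset.sum_eq_zero fun e _ => ?_
    rw [← Finset.mul_sum, hEv e, mul_zero]
  have h4 := (h v).1
  have h5 : ∀ j, y j * eval (Sum.elim (fun l => (z l : ℂ)) v) (Q j) =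
      μ' j * eval (Sum.elim (fun l => (z l : ℂ)) v) (Q j) +
      ((a j : ℂ) + ∑ i, (α j i : ℂ) * v i) *
        eval (Sum.elim (fun l => (z l : ℂ)) v) (Q j) := by
    intro j
    rw [hμ']
    ring
  rw [Finset.sum_congr rfl fun j _ => h5 j, Finset.sum_add_distrib, h2, h4, add_zero]

/-- The form with the affine hull. -/
theorem goodSR_hull {N n s : ℕ} {Q : Fin s → MvPolynomial (Fin N ⊕ Fin n) ℂ}
    (hQ : ∀ j, AlgVal (Submodule.span Qa {(1 : ℂ)}) (Q j))
    {X V : Submodule Qa ℂ} (h : GoodSR Q X V) (z : Fin N → Qa)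
    (w : Fin n → ℂ) (hw : ∀ j, w j ∈ X)
    (hd : Disjoint (Submodule.span Qa (Set.range w)) V)
    (l : Fin s → ℂ) (hl : ∀ j, l j ∈ Lt)
    (h0 : ∑ j, l j * eval (Sum.elim (fun l => (z l : ℂ)) w) (Q j) = 0)
    (x : Fin n → ℂ) (y : Fin s → ℂ) (hxy : Hull w l x y) :
    ∑ j, y j * eval (Sum.elim (fun l => (z l : ℂ)) x) (Q j) = 0 := by
  classical
  obtain ⟨n', ι, B, hli, hB⟩ := exists_basis w
  have hsp : Submodule.span Qa (Set.range fun j => w (ι j)) ≤
      Submodule.span Qa (Set.range w) := by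
    refine Submodule.span_mono ?_
    rintro _ ⟨j, rfl⟩
    exact ⟨ι j, rfl⟩
  obtain ⟨a, α, hα⟩ := goodS_main (h n' ι) (za ι z B) (fun j => w (ι j)) (fun j => hw _) hli
    (hd.mono_left hsp) l hl (by
      simp only [eval_PT ι _ z B w (hB w fun q hq => hq)]
      exact h0)
  have hext : ∀ (q : Fin n' → Qa) (x : Fin n → ℂ),
      ∑ i, ((Function.extend ι q 0 i : Qa) : ℂ) * x i = ∑ i, (q i : ℂ) * x (ι i) := by
    intro q x
    have h1 : ∑ i, ((Function.extend ι q 0 i : Qa) : ℂ) * x i =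
        ∑ i ∈ Finset.univ.map ι, ((Function.extend ι q 0 i : Qa) : ℂ) * x i := by
      symm
      refine Finset.sum_subset (Finset.subset_univ _) fun i _ hi => ?_
      have h2 : ¬ ∃ j, ι j = i := by
        rintro ⟨j, rfl⟩
        exact hi (Finset.mem_map_of_mem ι (Finset.mem_univ j))
      rw [Function.extend_apply' _ _ _ h2]
      simp
    rw [h1, Finset.sum_map]
    refine Finset.sum_congr rfl fun j _ => ?_
    rw [ι.injective.extend_apply]
  have h1 := hull_indep (fun j => algVal_PT ι (hQ j)) (za ι z B) (fun j => w (ι j)) l a α hα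
    (fun j => x (ι j)) y (fun q0 q p hq => by
      have h2 := hxy q0 (Function.extend ι q 0) p (by rw [hext]; exact hq)
      rw [hext] at h2
      exact h2)
  simp only [eval_PT ι _ z B x (hB x hxy.rels)] at h1
  exact h1

end MP60829e.SY
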