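import Pool.Agent.Lib.MP_60829e_nt.SY.XRat
import Pool.Agent.Lib.MP_60829e_nt.SY.Hull
import Pool.Agent.Lib.MP_60829e_nt.FZ.Ext

/-! # Countable families of systems -/

open MvPolynomial Module

namespace MP60829e.SY

open MP60829e.ST (Qa Lsp Lt)
open MP60829e.FC (Xr Gen)
open MP60829e.FL (AlgVal algVal_PT)
open MP60829e.FR (PT za Rels)

/-- The property of a system. -/
def Sys (F V : Submodule ℚ ℂ) {N n s : ℕ} (Q : Fin s → MvPolynomial (Fin N ⊕ Fin n) ℂ) : Prop :=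
  ∀ (z : Fin N → Qa) (w : Fin n → ℂ), (∀ j, w j ∈ Submodule.span Qa (F : Set ℂ)) →
    Disjoint (Submodule.span Qa (Set.range w)) (Submodule.span Qa (V : Set ℂ)) →
    ∀ l : Fin s → ℂ, (∀ j, l j ∈ Lt) →
      ∑ j, l j * eval (Sum.elim (fun l => (z l : ℂ)) w) (Q j) = 0 →
      ∀ (x : Fin n → ℂ) (y : Fin s → ℂ), Hull w l x y →
        ∑ j, y j * eval (Sum.elim (fun l => (z l : ℂ)) x) (Q j) = 0

/-- The recursion for the systems. -/
theorem dens_sys {I : Type} (Nn nn ss : I → ℕ) (hs : ∀ i, 1 ≤ ss i)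
    (Q : ∀ i, Fin (ss i) → MvPolynomial (Fin (Nn i) ⊕ Fin (nn i)) ℂ)
    (hQ : ∀ i j, AlgVal (Submodule.span Qa {(1 : ℂ)}) (Q i j))
    (act : I → ℕ) (hfin : ∀ r, {i | act i ≤ r}.Finite) (μ : ℕ → ℕ) (hμ : Monotone μ)
    (hact : ∀ i, Nn i + (nn i + ss i) ^ 2 + ss i + 1 ≤ μ (act i))
    (lam : ℕ → ℂ) (halg : ∀ j, IsAlgebraic ℚ (Complex.exp (lam j)))
    (hli : LinearIndependent ℚ lam)
    (hspan : ∀ z : ℂ, IsAlgebraic ℚ (Complex.exp z) → z ∈ Submodule.span ℚ (Set.range lam)) :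
    ∃ F : Submodule ℚ ℂ, (∀ l ∈ F, IsAlgebraic ℚ (Complex.exp l)) ∧
      (∀ r, r ≤ finrank ℚ (F ⊓ Er lam r : Submodule ℚ ℂ) + μ r) ∧
      ∀ i, Sys F (F ⊓ Er lam (act i)) (Q i) := by
  have hlam := FC.baker lam halg hli
  have hlog : ∀ j, lam j ∈ Lsp := fun j => Submodule.subset_span (halg j)
  obtain ⟨x, hx0, hx⟩ := exists_xD act hfin μ hμ lam (fun i => GoodSR (Q i))
    (fun i X => goodSR_base (Q i) X) (by
      intro i r hr x U hU V h
      exact goodSR_step (hs i) ((hact i).trans (hμ hr)) lam hlam hlog x U hU (Q i) (hQ i) V h)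
  obtain ⟨Φ, hΦ⟩ := exists_PhiD lam hli x
  have hx0' : ∀ r, ∀ j < r, ∀ t, μ r ≤ t → x j t = 0 := fun r j hj t ht =>
    hx0 j t ((hμ hj.le).trans ht)
  refine ⟨FF Φ, fun l hl => (mem_FF.1 hl).1, fun r => ?_, fun i => ?_⟩
  · exact codim lam halg hli x (μ r) r (hx0' r) Φ hΦ
  · intro z w hw hd l hl h0 v y hvy
    obtain ⟨r, hr⟩ := exists_rD lam x hspan Φ hΦ w hw
    refine goodSR_hull (hQ i) (hx i (max (act i) r) (le_max_left _ _)) z w
      (fun j => XR_mono lam x (le_max_right _ _) (hr j)) ?_ l hl h0 v y hvy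
    exact hd.mono_right (XR_le_span lam halg x (μ (act i)) (act i) (hx0' _) Φ hΦ)

/-- Larger exceptional spaces. -/
theorem Sys.mono {F V V' : Submodule ℚ ℂ} {N n s : ℕ}
    {Q : Fin s → MvPolynomial (Fin N ⊕ Fin n) ℂ} (h : Sys F V Q) (hV : V ≤ V') : Sys F V' Q :=
  fun z w hw hd => h z w hw (hd.mono_right (Submodule.span_mono hV))

theorem countable_poly (σ : Type) [Countable σ] : Countable (MvPolynomial σ Qa) := by
  have h1 : Countable Qa := by
    have h2 := (Algebraic.countable ℚ ℂ).to_subtype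
    exact (Function.Injective.countable (f := fun q : Qa =>
      (⟨q, mem_algebraicClosure_iff.1 q.2⟩ : {x : ℂ | IsAlgebraic ℚ x}))
      (fun a b h => Subtype.ext
        (congrArg (fun u : {x : ℂ | IsAlgebraic ℚ x} => (u : ℂ)) h)))
  rw [← Cardinal.mk_le_aleph0_iff]
  refine (MvPolynomial.cardinalMk_le_max).trans ?_
  rw [sup_le_iff, sup_le_iff]
  exact ⟨⟨Cardinal.mk_le_aleph0_iff.2 h1, Cardinal.mk_le_aleph0_iff.2 inferInstance⟩, le_rfl⟩

/-- The number of conditions for the universal system. -/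
def cst (n s D : ℕ) : ℕ := s * (n + D).choose n + (n + s) ^ 2 + s + 1

theorem finite_cst (m : ℕ) :
    {p : ℕ × ℕ × ℕ | 1 ≤ p.1 ∧ 1 ≤ p.2.1 ∧ cst p.1 p.2.1 p.2.2 ≤ m}.Finite := by
  refine ((Set.finite_Iic m).prod ((Set.finite_Iic m).prod (Set.finite_Iic m))).subset ?_
  rintro ⟨n, s, D⟩ ⟨hn, hs, h⟩
  simp only at hn hs h
  unfold cst at h
  have h2 : s ≤ s * s := Nat.le_mul_self s
  have h3 : n ≤ (n + s) ^ 2 := by nlinarith
  have h4 : s ≤ (n + s) ^ 2 := by nlinarith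
  have h5 : (n + D).choose n ≤ s * (n + D).choose n := Nat.le_mul_of_pos_left _ hs
  have h6 : D < m + 1 := FZ.le_of_choose hn (by omega)
  refine ⟨?_, ?_, ?_⟩
  · change n ≤ m
    omega
  · change s ≤ m
    omega
  · change D ≤ m
    omega

end MP60829e.SY
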