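import Pool.Agent.Lib.MP_60829e_nt.SY.Fam

/-! # The density form -/

open MvPolynomial Module

namespace MP60829e.SY

open MP60829e.ST (Qa Lsp Lt)
open MP60829e.FC (Xr Gen)
open MP60829e.FL (AlgVal algVal_PT)
open MP60829e.FR (PT za Rels)

/-- The universal system. -/
theorem exists_univS (n s D : ℕ) :
    ∃ P : Fin s → MvPolynomial (Fin (s * (n + D).choose n) ⊕ Fin n) ℂ,
      (∀ j, AlgVal (Submodule.span Qa {(1 : ℂ)}) (P j)) ∧
      ∀ g : Fin s → MvPolynomial (Fin n) ℂ, (∀ j a, IsAlgebraic ℚ (coeff a (g j))) →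
        (∀ j, (g j).totalDegree ≤ D) → ∃ z : Fin (s * (n + D).choose n) → Qa,
          ∀ (j : Fin s) (x : Fin n → ℂ),
            eval (Sum.elim (fun l => (z l : ℂ)) x) (P j) = eval x (g j) := by
  obtain ⟨P, h1, h2, -⟩ := FZ.exists_univC n D
  refine ⟨fun j => rename (Sum.map (fun t => finProdFinEquiv (j, t)) id) P, fun j y => ?_,
    fun g hg hD => ?_⟩
  · rw [eval_rename]
    exact FL.algVal_alg h1 (y ∘ Sum.map (fun t => finProdFinEquiv (j, t)) id)
  · choose z hz using fun j => h2 (g j) (hg j) (hD j)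
    refine ⟨fun l => z (finProdFinEquiv.symm l).1 (finProdFinEquiv.symm l).2, fun j x => ?_⟩
    rw [eval_rename, ← hz j x]
    congr 2
    funext t
    rcases t with t | i
    · simp only [Function.comp_apply, Sum.map_inl, Sum.elim_inl, Equiv.symm_apply_apply]
    · rfl

/-- Translations of the hull. -/
theorem hull_shift {n s : ℕ} {w : Fin n → ℂ} {l : Fin s → ℂ} {x : Fin n → ℂ} {y : Fin s → ℂ}
    (h : Hull w l x y) (c : Fin n → Qa) (v : Fin n → ℂ) (hv : ∀ i, w i = (c i : ℂ) + v i) :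
    Hull v l (fun i => x i - (c i : ℂ)) y := by
  intro q0 q p h0
  have h1 := h (q0 - ∑ i, q i * c i) q p (by
    rw [← h0]
    push_cast
    simp only [hv, mul_add, Finset.sum_add_distrib]
    ring)
  rw [← h1]
  push_cast
  simp only [mul_sub, Finset.sum_sub_distrib]
  ring

/-- From a system with parameters to all systems of bounded degree, with constants. -/
theorem sys_univ {n s D : ℕ} {P : Fin s → MvPolynomial (Fin (s * (n + D).choose n) ⊕ Fin n) ℂ}
    (hP : ∀ g : Fin s → MvPolynomial (Fin n) ℂ, (∀ j a, IsAlgebraic ℚ (coeff a (g j))) →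
        (∀ j, (g j).totalDegree ≤ D) → ∃ z : Fin (s * (n + D).choose n) → Qa,
          ∀ (j : Fin s) (x : Fin n → ℂ),
            eval (Sum.elim (fun l => (z l : ℂ)) x) (P j) = eval x (g j))
    {F V : Submodule ℚ ℂ} (h : Sys F V P) (g : Fin s → MvPolynomial (Fin n) ℂ)
    (hg : ∀ j a, IsAlgebraic ℚ (coeff a (g j))) (hD : ∀ j, (g j).totalDegree ≤ D)
    (w : Fin n → ℂ) (hw : ∀ j, w j ∈ Submodule.span Qa ({1} ∪ (F : Set ℂ)))
    (hd : Disjoint (Submodule.span Qa ({1} ∪ Set.range w)) (Submodule.span Qa (V : Set ℂ)))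
    (l : Fin s → ℂ) (hl : ∀ j, l j ∈ Lt) (h0 : ∑ j, l j * eval w (g j) = 0)
    (x : Fin n → ℂ) (y : Fin s → ℂ) (hxy : Hull w l x y) : ∑ j, y j * eval x (g j) = 0 := by
  have hw' : ∀ j, ∃ (c : Qa) (v : ℂ), v ∈ Submodule.span Qa (F : Set ℂ) ∧ w j = (c : ℂ) + v := by
    intro j
    have h1 := hw j
    rw [Submodule.span_union, Submodule.mem_sup] at h1
    obtain ⟨y, hy, v, hv, hyv⟩ := h1
    obtain ⟨c, rfl⟩ := Submodule.mem_span_singleton.1 hy
    refine ⟨c, v, hv, ?_⟩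
    rw [← hyv]
    congr 1
    rw [smul_eq, mul_one]
  choose c v hv hcv using hw'
  choose g' hg' hD' he using fun j => FZ.exists_shift (g j) (hg j) (hD j) c
  obtain ⟨z, hz⟩ := hP g' hg' hD'
  have hwv : (fun i => (c i : ℂ) + v i) = w := funext fun i => (hcv i).symm
  have h1 : ∑ j, l j * eval (Sum.elim (fun l => (z l : ℂ)) v) (P j) = 0 := by
    rw [← h0]
    refine Finset.sum_congr rfl fun j _ => ?_
    rw [hz, he, hwv]
  have hd' : Disjoint (Submodule.span Qa (Set.range v)) (Submodule.span Qa (V : Set ℂ)) := by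
    refine hd.mono_left ?_
    rw [Submodule.span_le]
    rintro _ ⟨i, rfl⟩
    have h2 : v i = w i - c i • (1 : ℂ) := by
      rw [hcv i, smul_eq, mul_one, add_sub_cancel_left]
    rw [h2]
    exact Submodule.sub_mem _ (Submodule.subset_span (Or.inr ⟨i, rfl⟩))
      (Submodule.smul_mem _ _ (Submodule.subset_span (Or.inl rfl)))
  have h2 := h z v hv hd' l hl h1 _ y (hull_shift hxy c v hcv)
  rw [← h2]
  refine Finset.sum_congr rfl fun j _ => ?_
  rw [hz, he]
  congr 3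
  funext i
  ring

/-- The density form. -/
theorem dens (lam : ℕ → ℂ) (halg : ∀ j, IsAlgebraic ℚ (Complex.exp (lam j)))
    (hli : LinearIndependent ℚ lam)
    (hspan : ∀ z : ℂ, IsAlgebraic ℚ (Complex.exp z) → z ∈ Submodule.span ℚ (Set.range lam))
    (μ : ℕ → ℕ) (hμ : Monotone μ) (N n s : ℕ → ℕ)
    (g : ∀ i, Fin (s i) → MvPolynomial (Fin (N i) ⊕ Fin (n i)) ℂ)
    (hg : ∀ i j a, IsAlgebraic ℚ (coeff a (g i j))) :
    ∃ F : Submodule ℚ ℂ, (∀ l ∈ F, IsAlgebraic ℚ (Complex.exp l)) ∧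
      (∀ r, r ≤ finrank ℚ (F ⊓ Er lam r : Submodule ℚ ℂ) + μ r) ∧
      (∀ n s D r : ℕ, cst n s D ≤ μ r →
        ∀ g : Fin s → MvPolynomial (Fin n) ℂ, (∀ j a, IsAlgebraic ℚ (coeff a (g j))) →
          (∀ j, (g j).totalDegree ≤ D) → ∀ w : Fin n → ℂ,
          (∀ j, w j ∈ Submodule.span Qa ({1} ∪ (F : Set ℂ))) →
          Disjoint (Submodule.span Qa ({1} ∪ Set.range w))
            (Submodule.span Qa ((F ⊓ Er lam r : Submodule ℚ ℂ) : Set ℂ)) →
          ∀ l : Fin s → ℂ, (∀ j, l j ∈ Lt) → ∑ j, l j * eval w (g j) = 0 →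
          ∀ (x : Fin n → ℂ) (y : Fin s → ℂ), Hull w l x y → ∑ j, y j * eval x (g j) = 0) ∧
      ∀ i r : ℕ, i ≤ r → N i + (n i + s i) ^ 2 + s i + 1 ≤ μ r → Sys F (F ⊓ Er lam r) (g i) := by
  classical
  choose P hP1 hP2 using exists_univS
  let I1 : Type := {p : ℕ × ℕ × ℕ // 1 ≤ p.1 ∧ 1 ≤ p.2.1 ∧ ∃ r, cst p.1 p.2.1 p.2.2 ≤ μ r}
  let I2 : Type := {i : ℕ // 1 ≤ s i ∧ ∃ r, N i + (n i + s i) ^ 2 + s i + 1 ≤ μ r}
  let Nn : I1 ⊕ I2 → ℕ := Sum.elim
    (fun p => p.1.2.1 * (p.1.1 + p.1.2.2).choose p.1.1) (fun p => N p.1)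
  let nn : I1 ⊕ I2 → ℕ := Sum.elim (fun p => p.1.1) (fun p => n p.1)
  let ss : I1 ⊕ I2 → ℕ := Sum.elim (fun p => p.1.2.1) (fun p => s p.1)
  let Q : ∀ i : I1 ⊕ I2, Fin (ss i) → MvPolynomial (Fin (Nn i) ⊕ Fin (nn i)) ℂ := fun i =>
    match i with
    | Sum.inl p => P p.1.1 p.1.2.1 p.1.2.2
    | Sum.inr p => g p.1
  let act : I1 ⊕ I2 → ℕ := Sum.elim (fun p => Nat.find p.2.2.2)
    (fun p => max p.1 (Nat.find p.2.2))
  obtain ⟨F, hF1, hF2, hF3⟩ := dens_sys Nn nn ss
    (by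
      rintro (p | p)
      · exact p.2.2.1
      · exact p.2.1) Q
    (by
      rintro (p | p) j
      · exact hP1 p.1.1 p.1.2.1 p.1.2.2 j
      · exact FL.algVal_alg (hg p.1 j)) act
    (by
      intro r
      have h1 : {i : I1 ⊕ I2 | act i ≤ r} ⊆
          Sum.inl '' {p : I1 | cst p.1.1 p.1.2.1 p.1.2.2 ≤ μ r} ∪
          Sum.inr '' {p : I2 | p.1 ≤ r} := by
        rintro (p | p) hp
        · exact Or.inl ⟨p, (Nat.find_spec p.2.2.2).trans (hμ hp), rfl⟩
        · exact Or.inr ⟨p, show p.1 ≤ r from (le_max_left _ _).trans hp, rfl⟩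
      refine Set.Finite.subset (Set.Finite.union (Set.Finite.image _ ?_)
        (Set.Finite.image _ ?_)) h1
      · refine Set.Finite.of_finite_image (f := Subtype.val) ?_
          (Subtype.val_injective.injOn)
        refine (finite_cst (μ r)).subset ?_
        rintro _ ⟨p, hp, rfl⟩
        exact ⟨p.2.1, p.2.2.1, hp⟩
      · refine Set.Finite.of_finite_image (f := Subtype.val) ?_
          (Subtype.val_injective.injOn)
        refine (Set.finite_Iic r).subset ?_
        rintro _ ⟨p, hp, rfl⟩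
        exact hp) μ hμ
    (by
      rintro (p | p)
      · exact Nat.find_spec p.2.2.2
      · exact (Nat.find_spec p.2.2).trans (hμ (le_max_right _ _))) lam halg hli hspan
  have hEr : ∀ {a b : ℕ}, a ≤ b → F ⊓ Er lam a ≤ F ⊓ Er lam b := fun h =>
    inf_le_inf_left F (Submodule.span_mono (Set.image_mono (Set.Iio_subset_Iio h)))
  refine ⟨F, hF1, hF2, ?_, ?_⟩
  · intro n s D r hr g hg hD w hw hd l hl h0 x y hxy
    rcases Nat.eq_zero_or_pos s with rfl | hs
    · rw [Finset.univ_eq_empty, Finset.sum_empty]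
    rcases Nat.eq_zero_or_pos n with rfl | hn
    · have hc : ∀ (j : Fin s) (v : Fin 0 → ℂ), eval v (g j) = coeff 0 (g j) := by
        intro j v
        conv_lhs => rw [MvPolynomial.eq_C_of_isEmpty (g j)]
        rw [eval_C]
      have h1 := hxy 0 0 (fun j => ⟨coeff 0 (g j), mem_algebraicClosure_iff.2 (hg j 0)⟩) (by
        rw [Finset.univ_eq_empty, Finset.sum_empty, ZeroMemClass.coe_zero, zero_add, zero_add,
          ← h0]
        refine Finset.sum_congr rfl fun j _ => ?_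
        rw [hc, mul_comm])
      rw [Finset.univ_eq_empty, Finset.sum_empty, ZeroMemClass.coe_zero, zero_add, zero_add] at h1
      rw [← h1]
      refine Finset.sum_congr rfl fun j _ => ?_
      rw [hc, mul_comm]
    · let i : I1 ⊕ I2 := Sum.inl ⟨(n, s, D), hn, hs, r, hr⟩
      have h1 : act i ≤ r := Nat.find_min' _ hr
      have h2 : Sys F (F ⊓ Er lam (act i)) (P n s D) := hF3 i
      exact sys_univ (hP2 n s D) (h2.mono (hEr h1)) g hg hD w hw hd l hl h0 x y hxy
  · intro i r hir hr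
    rcases Nat.eq_zero_or_pos (s i) with hs | hs
    · intro z w _ _ l _ _ x y _
      have h1 : IsEmpty (Fin (s i)) := by
        rw [hs]
        infer_instance
      rw [Finset.univ_eq_empty, Finset.sum_empty]
    let i' : I1 ⊕ I2 := Sum.inr ⟨i, hs, r, hr⟩
    have h1 : act i' ≤ r := max_le hir (Nat.find_min' _ hr)
    have h2 : Sys F (F ⊓ Er lam (act i')) (g i) := hF3 i'
    exact h2.mono (hEr h1)

end MP60829e.SY
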