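import Pool.Agent.Lib.MP_60829e_nt.SY.Final
import Pool.Agent.Lib.MP_60829e_nt.FG.Hyp
import Pool.Agent.Lib.MP_60829e_nt.FG.GenA
import Pool.Agent.Lib.MP_60829e_nt.FS.SYDesc

/-! # The form for generic spaces of logarithms -/

open MvPolynomial Module

namespace MP60829e.SY

open MP60829e.ST (Qa Lsp Lt)
open MP60829e.FC (Xr Gen)
open MP60829e.FL (AlgVal algVal_PT)
open MP60829e.FR (PT za Rels)
open MP60829e.FG (XN exists_H)

/-- The number of conditions. -/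
def cc (N n s : ℕ) : ℕ := N + s + (n + s) * (n + s - 1) + 1

theorem cc_bounds {N n s : ℕ} (hs : 1 ≤ s) : N < cc N n s ∧ n ≤ cc N n s ∧ s ≤ cc N n s := by
  unfold cc
  have h1 : n ≤ (n + s) * (n + s - 1) :=
    le_trans (by omega : n ≤ n + s - 1) (Nat.le_mul_of_pos_left _ (by omega))
  omega

theorem goodSR_step' {N n s m r : ℕ} (hs : 1 ≤ s) (hm : cc N n s ≤ m)
    (lam : ℕ → ℂ)
    (hlam : LinearIndependent Qa lam) (hlog : ∀ j, lam j ∈ Lsp) (x : ℕ → Fin m → ℚ)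
    (U : Ultrafilter (Fin m → ℚ)) (hU : Gen U) (Q : Fin s → MvPolynomial (Fin N ⊕ Fin n) ℂ)
    (hQ : ∀ j, AlgVal (Submodule.span Qa {(1 : ℂ)}) (Q j))
    (V : Submodule Qa ℂ) (h : GoodSR Q (Xr lam x r) V) :
    ∀ᶠ a in (U : Filter (Fin m → ℚ)), GoodSR Q (Xr lam (Function.update x r a) (r + 1)) V :=
  FS.goodSR_stepS hs hm lam hlam hlog x U hU Q hQ V h

/-- The recursion for the systems. -/
theorem sysH {I : Type} (Nn nn ss : I → ℕ) (hs : ∀ i, 1 ≤ ss i)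
    (Q : ∀ i, Fin (ss i) → MvPolynomial (Fin (Nn i) ⊕ Fin (nn i)) ℂ)
    (hQ : ∀ i j, AlgVal (Submodule.span Qa {(1 : ℂ)}) (Q i j))
    (act : I → ℕ) (hfin : ∀ r, {i | act i ≤ r}.Finite) (μ : ℕ → ℕ) (hμ : Monotone μ)
    (hact : ∀ i, cc (Nn i) (nn i) (ss i) ≤ μ (act i))
    (lam : ℕ → ℂ) (halg : ∀ j, IsAlgebraic ℚ (Complex.exp (lam j)))
    (hli : LinearIndependent ℚ lam)
    (hspan : ∀ z : ℂ, IsAlgebraic ℚ (Complex.exp z) → z ∈ Submodule.span ℚ (Set.range lam)) :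
    ∃ H : (r : ℕ) → (Fin r → ℕ → ℚ) → MvPolynomial (Fin (μ r)) ℚ, (∀ r y, H r y ≠ 0) ∧
      ∀ Φ : ℂ →ₗ[ℚ] (ℕ → ℚ), (∀ j t, μ j ≤ t → Φ (lam j) t = 0) →
      (∀ r, eval (fun t : Fin (μ r) => Φ (lam r) t) (H r fun j => Φ (lam j)) ≠ 0) →
      ∀ F : Submodule ℚ ℂ, (∀ l : ℂ, l ∈ F ↔ IsAlgebraic ℚ (Complex.exp l) ∧ Φ l = 0) →
      ∀ i, Sys F (F ⊓ Er lam (act i)) (Q i) := by
  have hlam := FC.baker lam halg hli
  have hlog : ∀ j, lam j ∈ Lsp := fun j => Submodule.subset_span (halg j)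
  obtain ⟨H, hH0, hH⟩ := exists_H hμ 0 lam (fun i => GoodSR (Q i)) act hfin
    (fun _ => Nat.zero_le _) (fun i x _ => goodSR_base (Q i) _) (by
      intro i r hr x U hU V h
      exact goodSR_step' (hs i) ((hact i).trans (hμ hr)) lam hlam hlog x U hU (Q i) (hQ i) V h)
  refine ⟨H, hH0, fun Φ hx1 hxH F hF i => ?_⟩
  have hx := hH (fun j => Φ (lam j)) hx1 (fun j hj => absurd hj (Nat.not_lt_zero j))
    (fun r _ => hxH r) i
  intro z w hw hd l hl h0 v y hvy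
  have hFs : (F : Set ℂ) = {l : ℂ | IsAlgebraic ℚ (Complex.exp l) ∧ Φ l = 0} := by
    ext l
    exact hF l
  obtain ⟨r, hr⟩ := FG.exists_r lam (fun j => Φ (lam j)) hspan Φ (fun _ => rfl) w (by
    rw [← hFs]
    exact hw)
  refine goodSR_hull (hQ i) (hx (max (act i) r) (le_max_left _ _)) z w
    (fun j => FG.XN_mono lam _ (le_max_right _ _) (hr j)) ?_ l hl h0 v y hvy
  exact hd.mono_right (FG.XN_le_span hμ lam halg _ hx1 Φ (fun _ => rfl) F hF (act i))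

theorem finite_cc (m : ℕ) :
    {p : ℕ × ℕ × ℕ | 1 ≤ p.1 ∧ 1 ≤ p.2.1 ∧
      cc (p.2.1 * (p.1 + p.2.2).choose p.1) p.1 p.2.1 ≤ m}.Finite := by
  refine ((Set.finite_Iic m).prod ((Set.finite_Iic m).prod (Set.finite_Iic m))).subset ?_
  rintro ⟨n, s, D⟩ ⟨hn, hs, h⟩
  simp only at hn hs h
  obtain ⟨h1, h2, h3⟩ := cc_bounds (N := s * (n + D).choose n) (n := n) hs
  have h5 : (n + D).choose n ≤ s * (n + D).choose n := Nat.le_mul_of_pos_left _ hs
  have h6 : D < m + 1 := FZ.le_of_choose hn (by omega)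
  refine ⟨?_, ?_, ?_⟩
  · change n ≤ m
    omega
  · change s ≤ m
    omega
  · change D ≤ m
    omega

/-- The form for generic spaces of logarithms. -/
theorem densY (lam : ℕ → ℂ) (halg : ∀ j, IsAlgebraic ℚ (Complex.exp (lam j)))
    (hli : LinearIndependent ℚ lam)
    (hspan : ∀ z : ℂ, IsAlgebraic ℚ (Complex.exp z) → z ∈ Submodule.span ℚ (Set.range lam))
    (μ : ℕ → ℕ) (hμ : Monotone μ) (N n s : ℕ → ℕ)
    (g : ∀ i, Fin (s i) → MvPolynomial (Fin (N i) ⊕ Fin (n i)) ℂ)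
    (hg : ∀ i j a, IsAlgebraic ℚ (coeff a (g i j))) :
    ∃ H : (r : ℕ) → (Fin r → ℕ → ℚ) → MvPolynomial (Fin (μ r)) ℚ, (∀ r y, H r y ≠ 0) ∧
      ∀ Φ : ℂ →ₗ[ℚ] (ℕ → ℚ), (∀ j t, μ j ≤ t → Φ (lam j) t = 0) →
      (∀ r, eval (fun t : Fin (μ r) => Φ (lam r) t) (H r fun j => Φ (lam j)) ≠ 0) →
      ∀ F : Submodule ℚ ℂ, (∀ l : ℂ, l ∈ F ↔ IsAlgebraic ℚ (Complex.exp l) ∧ Φ l = 0) →
      (∀ r, r ≤ finrank ℚ (F ⊓ Er lam r : Submodule ℚ ℂ) + μ r) ∧
      (∀ n s D r : ℕ, cc (s * (n + D).choose n) n s ≤ μ r →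
        ∀ g : Fin s → MvPolynomial (Fin n) ℂ, (∀ j a, IsAlgebraic ℚ (coeff a (g j))) →
          (∀ j, (g j).totalDegree ≤ D) → ∀ w : Fin n → ℂ,
          (∀ j, w j ∈ Submodule.span Qa ({1} ∪ (F : Set ℂ))) →
          Disjoint (Submodule.span Qa ({1} ∪ Set.range w))
            (Submodule.span Qa ((F ⊓ Er lam r : Submodule ℚ ℂ) : Set ℂ)) →
          ∀ l : Fin s → ℂ, (∀ j, l j ∈ Lt) → ∑ j, l j * eval w (g j) = 0 →
          ∀ (x : Fin n → ℂ) (y : Fin s → ℂ), Hull w l x y → ∑ j, y j * eval x (g j) = 0) ∧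
      ∀ i r : ℕ, i ≤ r → cc (N i) (n i) (s i) ≤ μ r → Sys F (F ⊓ Er lam r) (g i) := by
  classical
  choose P hP1 hP2 using exists_univS
  let I1 : Type := {p : ℕ × ℕ × ℕ // 1 ≤ p.1 ∧ 1 ≤ p.2.1 ∧
    ∃ r, cc (p.2.1 * (p.1 + p.2.2).choose p.1) p.1 p.2.1 ≤ μ r}
  let I2 : Type := {i : ℕ // 1 ≤ s i ∧ ∃ r, cc (N i) (n i) (s i) ≤ μ r}
  let Nn : I1 ⊕ I2 → ℕ := Sum.elim
    (fun p => p.1.2.1 * (p.1.1 + p.1.2.2).choose p.1.1) (fun p => N p.1)
  let nn : I1 ⊕ I2 → ℕ := Sum.elim (fun p => p.1.1) (fun p => n p.1)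
  let ss : I1 ⊕ I2 → ℕ := Sum.elim (fun p => p.1.2.1) (fun p => s p.1)
  let Q : ∀ i : I1 ⊕ I2, Fin (ss i) → MvPolynomial (Fin (Nn i) ⊕ Fin (nn i)) ℂ := fun i =>
    match i with
    | Sum.inl p => P p.1.1 p.1.2.1 p.1.2.2
    | Sum.inr p => g p.1
  let act : I1 ⊕ I2 → ℕ := Sum.elim (fun p => Nat.find p.2.2.2)
    (fun p => max p.1 (Nat.find p.2.2))
  obtain ⟨H, hH0, hH⟩ := sysH Nn nn ss
    (by
      rintro (p | p)
      · exact p.2.2.1
      · exact p.2.1) Q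
    (by
      rintro (p | p) j
      · exact hP1 p.1.1 p.1.2.1 p.1.2.2 j
      · exact FL.algVal_alg (hg p.1 j)) act
    (by
      intro r
      have h1 : {i : I1 ⊕ I2 | act i ≤ r} ⊆
          Sum.inl '' {p : I1 | cc (p.1.2.1 * (p.1.1 + p.1.2.2).choose p.1.1) p.1.1 p.1.2.1 ≤
            μ r} ∪ Sum.inr '' {p : I2 | p.1 ≤ r} := by
        rintro (p | p) hp
        · exact Or.inl ⟨p, (Nat.find_spec p.2.2.2).trans (hμ hp), rfl⟩
        · exact Or.inr ⟨p, show p.1 ≤ r from (le_max_left _ _).trans hp, rfl⟩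
      refine Set.Finite.subset (Set.Finite.union (Set.Finite.image _ ?_)
        (Set.Finite.image _ ?_)) h1
      · refine Set.Finite.of_finite_image (f := Subtype.val) ?_
          (Subtype.val_injective.injOn)
        refine (finite_cc (μ r)).subset ?_
        rintro _ ⟨p, hp, rfl⟩
        exact ⟨p.2.1, p.2.2.1, hp⟩
      · refine Set.Finite.of_finite_image (f := Subtype.val) ?_
          (Subtype.val_injective.injOn)
        refine (Set.finite_Iic r).subset ?_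
        rintro _ ⟨p, hp, rfl⟩
        exact hp) μ hμ
    (by
      rintro (p | p)
      · exact Nat.find_spec p.2.2.2
      · exact (Nat.find_spec p.2.2).trans (hμ (le_max_right _ _))) lam halg hli hspan
  refine ⟨H, hH0, fun Φ hx1 hxH F hF => ?_⟩
  have hF3 := hH Φ hx1 hxH F hF
  have hEr : ∀ {a b : ℕ}, a ≤ b → F ⊓ Er lam a ≤ F ⊓ Er lam b := fun h =>
    inf_le_inf_left F (Submodule.span_mono (Set.image_mono (Set.Iio_subset_Iio h)))
  refine ⟨FG.codim_le hμ lam halg hli _ hx1 Φ (fun _ => rfl) F hF, ?_, ?_⟩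
  · intro n s D r hr g hg hD w hw hd l hl h0 x y hxy
    rcases Nat.eq_zero_or_pos s with rfl | hs
    · rw [Finset.univ_eq_empty, Finset.sum_empty]
    rcases Nat.eq_zero_or_pos n with rfl | hn
    · have hc : ∀ (j : Fin s) (v : Fin 0 → ℂ), eval v (g j) = coeff 0 (g j) := by
        intro j v
        conv_lhs => rw [MvPolynomial.eq_C_of_isEmpty (g j)]
        rw [eval_C]
      have h1 := hxy 0 0 (fun j => ⟨coeff 0 (g j), mem_algebraicClosure_iff.2 (hg j 0)⟩) (by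
        rw [Finset.univ_eq_empty, Finset.sum_empty, ZeroMemClass.coe_zero, zero_add, zero_add,
          ← h0]
        refine Finset.sum_congr rfl fun j _ => ?_
        rw [hc, mul_comm])
      rw [Finset.univ_eq_empty, Finset.sum_empty, ZeroMemClass.coe_zero, zero_add, zero_add] at h1
      rw [← h1]
      refine Finset.sum_congr rfl fun j _ => ?_
      rw [hc, mul_comm]
    · let i : I1 ⊕ I2 := Sum.inl ⟨(n, s, D), hn, hs, r, hr⟩
      have h1 : act i ≤ r := Nat.find_min' _ hr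
      have h2 : Sys F (F ⊓ Er lam (act i)) (P n s D) := hF3 i
      exact sys_univ (hP2 n s D) (h2.mono (hEr h1)) g hg hD w hw hd l hl h0 x y hxy
  · intro i r hir hr
    rcases Nat.eq_zero_or_pos (s i) with hs | hs
    · intro z w _ _ l _ _ x y _
      have h1 : IsEmpty (Fin (s i)) := by
        rw [hs]
        infer_instance
      rw [Finset.univ_eq_empty, Finset.sum_empty]
    let i' : I1 ⊕ I2 := Sum.inr ⟨i, hs, r, hr⟩
    have h1 : act i' ≤ r := max_le hir (Nat.find_min' _ hr)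
    have h2 : Sys F (F ⊓ Er lam (act i')) (g i) := hF3 i'
    exact h2.mono (hEr h1)

end MP60829e.SY
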