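import Pool.Agent.Lib.MP_60829e_nt.FQ.Rec
import Pool.Agent.Lib.MP_60829e_nt.FQ.Final

/-! # The recursion with growing codimension -/

open MvPolynomial Module

namespace MP60829e.SY

open MP60829e.ST (Qa Lsp Lt)
open MP60829e.FC (Xr Gen)
open MP60829e.FQ (Xr_congr XQ)

/-- The coordinates below `m`. -/
def cut (m : ℕ) (x : ℕ → ℕ → ℚ) : ℕ → Fin m → ℚ := fun j t => x j t

/-- The combinations of `lam 0, ..., lam (r - 1)` in the kernel. -/
def XR (lam : ℕ → ℂ) (x : ℕ → ℕ → ℚ) (r : ℕ) : Submodule Qa ℂ where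
  carrier := {z | ∃ c : Fin r → Qa, (∀ s : ℕ, ∑ j, c j * ((x j s : ℚ) : Qa) = 0) ∧
    z = ∑ j, c j • lam j}
  zero_mem' := ⟨0, fun s => by simp, by simp⟩
  add_mem' := by
    rintro _ _ ⟨c, hc, rfl⟩ ⟨d, hd, rfl⟩
    refine ⟨c + d, fun s => ?_, ?_⟩
    · simp only [Pi.add_apply, add_mul, Finset.sum_add_distrib, hc s, hd s, add_zero]
    · simp only [Pi.add_apply, add_smul, Finset.sum_add_distrib]
  smul_mem' := by
    rintro q _ ⟨c, hc, rfl⟩
    refine ⟨q • c, fun s => ?_, ?_⟩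
    · simp only [Pi.smul_apply, smul_eq_mul, mul_assoc, ← Finset.mul_sum, hc s, mul_zero]
    · simp only [Pi.smul_apply, smul_eq_mul, mul_smul, ← Finset.smul_sum]

theorem mem_XR {lam : ℕ → ℂ} {x : ℕ → ℕ → ℚ} {r : ℕ} {z : ℂ} :
    z ∈ XR lam x r ↔ ∃ c : Fin r → Qa, (∀ s : ℕ, ∑ j, c j * ((x j s : ℚ) : Qa) = 0) ∧
      z = ∑ j, c j • lam j := Iff.rfl

theorem XR_zero (lam : ℕ → ℂ) (x : ℕ → ℕ → ℚ) : XR lam x 0 = ⊥ := by
  rw [eq_bot_iff]
  rintro _ ⟨c, -, rfl⟩
  simp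

/-- The comparison with finitely many coordinates. -/
theorem XR_eq (lam : ℕ → ℂ) (x : ℕ → ℕ → ℚ) (m r : ℕ) (h : ∀ j < r, ∀ t, m ≤ t → x j t = 0) :
    XR lam x r = Xr lam (cut m x) r := by
  ext z
  rw [mem_XR, FC.mem_Xr]
  constructor
  · rintro ⟨c, hc, hz⟩
    exact ⟨c, fun s => hc s, hz⟩
  · rintro ⟨c, hc, hz⟩
    refine ⟨c, fun t => ?_, hz⟩
    rcases Nat.lt_or_ge t m with ht | ht
    · exact hc ⟨t, ht⟩
    · refine Finset.sum_eq_zero fun j _ => ?_
      rw [h j j.2 t ht, Rat.cast_zero, mul_zero]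

theorem XR_congr (lam : ℕ → ℂ) {x y : ℕ → ℕ → ℚ} {r : ℕ} (h : ∀ j < r, x j = y j) :
    XR lam x r = XR lam y r := by
  ext z
  rw [mem_XR, mem_XR]
  have e : ∀ c : Fin r → Qa, ∀ s, ∑ j, c j * ((x j s : ℚ) : Qa) = ∑ j, c j * ((y j s : ℚ) : Qa) :=
    fun c s => Finset.sum_congr rfl fun j _ => by rw [h j j.2]
  constructor
  · rintro ⟨c, hc, hz⟩
    exact ⟨c, fun s => by rw [← e]; exact hc s, hz⟩
  · rintro ⟨c, hc, hz⟩
    exact ⟨c, fun s => by rw [e]; exact hc s, hz⟩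

theorem XR_mono (lam : ℕ → ℂ) (x : ℕ → ℕ → ℚ) : Monotone (XR lam x) := by
  apply monotone_nat_of_le_succ
  rintro r _ ⟨c, hc, rfl⟩
  refine ⟨Fin.snoc c 0, fun s => ?_, ?_⟩
  · rw [Fin.sum_univ_castSucc]
    simpa using hc s
  · rw [Fin.sum_univ_castSucc]
    simp

/-- The invariant of the recursion. -/
private def Inv {I : Type} (act : I → ℕ) (μ : ℕ → ℕ) (lam : ℕ → ℂ)
    (G : I → Submodule Qa ℂ → Submodule Qa ℂ → Prop) (r : ℕ) (x : ℕ → ℕ → ℚ) : Prop :=
  (∀ j t, μ j ≤ t → x j t = 0) ∧ ∀ i, act i ≤ r → G i (XR lam x r) (XR lam x (act i))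

private theorem inv_step {I : Type} (act : I → ℕ) (hfin : ∀ r, {i | act i ≤ r}.Finite)
    (μ : ℕ → ℕ) (hμ : Monotone μ) (lam : ℕ → ℂ)
    (G : I → Submodule Qa ℂ → Submodule Qa ℂ → Prop) (hbase : ∀ i X, G i X X)
    (hstep : ∀ (i : I) (r : ℕ), act i ≤ r → ∀ (x : ℕ → Fin (μ r) → ℚ)
      (U : Ultrafilter (Fin (μ r) → ℚ)), Gen U → ∀ V, G i (Xr lam x r) V →
        ∀ᶠ a in (U : Filter (Fin (μ r) → ℚ)), G i (Xr lam (Function.update x r a) (r + 1)) V)
    (r : ℕ) (x : ℕ → ℕ → ℚ) (h : Inv act μ lam G r x) :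
    ∃ a : ℕ → ℚ, Inv act μ lam G (r + 1) (Function.update x r a) := by
  obtain ⟨U, hU⟩ := FC.exists_gen (μ r)
  have hcut : XR lam x r = Xr lam (cut (μ r) x) r :=
    XR_eq lam x (μ r) r fun j hj t ht => h.1 j t ((hμ hj.le).trans ht)
  have h1 : ∀ᶠ a in (U : Filter (Fin (μ r) → ℚ)), ∀ i ∈ {i | act i ≤ r},
      G i (Xr lam (Function.update (cut (μ r) x) r a) (r + 1)) (XR lam x (act i)) := by
    rw [Filter.eventually_all_finite (hfin r)]
    intro i hi
    refine hstep i r hi _ U hU _ ?_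
    rw [← hcut]
    exact h.2 i hi
  obtain ⟨a, ha⟩ := h1.exists
  refine ⟨fun t => if ht : t < μ r then a ⟨t, ht⟩ else 0, ?_, fun i hi => ?_⟩
  · intro j t ht
    rcases eq_or_ne j r with rfl | hj
    · rw [Function.update_self, dif_neg (not_lt.2 ht)]
    · rw [Function.update_of_ne hj]
      exact h.1 j t ht
  · rcases Nat.lt_or_ge r (act i) with hri | hri
    · have h2 : act i = r + 1 := by omega
      rw [h2]
      exact hbase _ _
    · have h3 : XR lam (Function.update x r fun t => if ht : t < μ r then a ⟨t, ht⟩ else 0)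
          (act i) = XR lam x (act i) :=
        XR_congr lam fun j hj => Function.update_of_ne (by omega) _ _
      have h4 : XR lam (Function.update x r fun t => if ht : t < μ r then a ⟨t, ht⟩ else 0)
          (r + 1) = Xr lam (Function.update (cut (μ r) x) r a) (r + 1) := by
        rw [XR_eq lam _ (μ r) (r + 1)]
        · refine Xr_congr lam fun j hj => ?_
          funext t
          rcases eq_or_ne j r with rfl | hj'
          · rw [Function.update_self]
            unfold cut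
            rw [Function.update_self, dif_pos t.2]
          · rw [Function.update_of_ne hj']
            unfold cut
            rw [Function.update_of_ne hj']
        · intro j hj t ht
          rcases eq_or_ne j r with rfl | hj'
          · rw [Function.update_self, dif_neg (not_lt.2 ht)]
          · rw [Function.update_of_ne hj']
            exact h.1 j t ((hμ (by omega)).trans ht)
      rw [h3, h4]
      exact ha i hri

/-- The recursion with growing codimension. -/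
theorem exists_xD {I : Type} (act : I → ℕ) (hfin : ∀ r, {i | act i ≤ r}.Finite)
    (μ : ℕ → ℕ) (hμ : Monotone μ) (lam : ℕ → ℂ)
    (G : I → Submodule Qa ℂ → Submodule Qa ℂ → Prop) (hbase : ∀ i X, G i X X)
    (hstep : ∀ (i : I) (r : ℕ), act i ≤ r → ∀ (x : ℕ → Fin (μ r) → ℚ)
      (U : Ultrafilter (Fin (μ r) → ℚ)), Gen U → ∀ V, G i (Xr lam x r) V →
        ∀ᶠ a in (U : Filter (Fin (μ r) → ℚ)), G i (Xr lam (Function.update x r a) (r + 1)) V) :
    ∃ x : ℕ → ℕ → ℚ, (∀ j t, μ j ≤ t → x j t = 0) ∧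
      ∀ i r, act i ≤ r → G i (XR lam x r) (XR lam x (act i)) := by
  choose a ha using fun (r : ℕ) (x : ℕ → ℕ → ℚ) (h : Inv act μ lam G r x) =>
    inv_step act hfin μ hμ lam G hbase hstep r x h
  have h0 : Inv act μ lam G 0 (0 : ℕ → ℕ → ℚ) := by
    refine ⟨fun j t _ => rfl, fun i hi => ?_⟩
    rw [Nat.le_zero.1 hi]
    exact hbase _ _
  let q : ∀ r : ℕ, {x : ℕ → ℕ → ℚ // Inv act μ lam G r x} := fun r =>
    Nat.rec ⟨0, h0⟩
      (fun r p => ⟨Function.update p.1 r (a r p.1 p.2), ha r p.1 p.2⟩) r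
  have hq : ∀ r, (q (r + 1)).1 = Function.update (q r).1 r (a r (q r).1 (q r).2) :=
    fun r => rfl
  have hstab : ∀ r k, ∀ j < r, (q (r + k)).1 j = (q r).1 j := by
    intro r k
    induction k with
    | zero => exact fun j _ => rfl
    | succ k ih =>
      intro j hj
      rw [← add_assoc, hq, Function.update_of_ne (by omega)]
      exact ih j hj
  obtain ⟨x, hx⟩ : ∃ x : ℕ → ℕ → ℚ, x = fun j => (q (j + 1)).1 j := ⟨_, rfl⟩
  have key : ∀ r, ∀ j < r, (q r).1 j = x j := by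
    intro r j hj
    rw [hx]
    dsimp only
    obtain ⟨k, hk⟩ := Nat.exists_eq_add_of_le (Nat.succ_le_of_lt hj)
    rw [hk]
    exact hstab (j + 1) k j (by omega)
  have hX : ∀ i r, i ≤ r → XR lam x i = XR lam (q r).1 i := fun i r hir =>
    XR_congr lam fun j hj => (key r j (by omega)).symm
  refine ⟨x, fun j t ht => ?_, fun i r hir => ?_⟩
  · rw [hx]
    exact (q (j + 1)).2.1 j t ht
  · rw [hX r r le_rfl, hX (act i) r hir]
    exact (q r).2.2 i hir

end MP60829e.SY
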