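import Pool.Agent.Lib.MP_60829e_nt.SY.RecD

/-! # The space of the logarithms in the kernel -/

open MvPolynomial Module

namespace MP60829e.SY

open MP60829e.ST (Qa Lsp Lt)
open MP60829e.FC (Xr Gen)
open MP60829e.FQ (Xr_congr XQ)

/-- The linear map with given values at `lam j`. -/
theorem exists_PhiD (lam : ℕ → ℂ) (hli : LinearIndependent ℚ lam)
    (x : ℕ → ℕ → ℚ) : ∃ Φ : ℂ →ₗ[ℚ] (ℕ → ℚ), ∀ j, Φ (lam j) = x j := by
  obtain ⟨Φ, hΦ⟩ := LinearMap.exists_extend ((Basis.span hli).constr ℚ x)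
  refine ⟨Φ, fun j => ?_⟩
  have h1 : Φ ((Basis.span hli j : Submodule.span ℚ (Set.range lam)) : ℂ) = x j := by
    have h2 := congrArg (fun f => f (Basis.span hli j)) hΦ
    simp only [LinearMap.comp_apply, Submodule.subtype_apply] at h2
    rw [h2, Basis.constr_basis]
  rwa [Basis.span_apply] at h1

/-- The logarithms in the kernel of `Φ`. -/
noncomputable def FF (Φ : ℂ →ₗ[ℚ] (ℕ → ℚ)) : Submodule ℚ ℂ := SE.Lg ⊓ LinearMap.ker Φ

theorem mem_FF {Φ : ℂ →ₗ[ℚ] (ℕ → ℚ)} {l : ℂ} :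
    l ∈ FF Φ ↔ IsAlgebraic ℚ (Complex.exp l) ∧ Φ l = 0 := by
  unfold FF
  rw [Submodule.mem_inf, LinearMap.mem_ker]
  rfl

/-- The span of `lam j`, `j < r`. -/
noncomputable def Er (lam : ℕ → ℂ) (r : ℕ) : Submodule ℚ ℂ :=
  Submodule.span ℚ (lam '' Set.Iio r)

theorem Er_eq (lam : ℕ → ℂ) (r : ℕ) :
    Er lam r = Submodule.span ℚ (Set.range fun j : Fin r => lam j) := by
  unfold Er
  congr 1
  ext z
  constructor
  · rintro ⟨j, hj, rfl⟩
    exact ⟨⟨j, hj⟩, rfl⟩
  · rintro ⟨j, rfl⟩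
    exact ⟨j, j.2, rfl⟩

/-- Finite families are in some `XR lam x r`. -/
theorem exists_rD {n : ℕ} (lam : ℕ → ℂ) (x : ℕ → ℕ → ℚ)
    (hspan : ∀ z : ℂ, IsAlgebraic ℚ (Complex.exp z) → z ∈ Submodule.span ℚ (Set.range lam))
    (Φ : ℂ →ₗ[ℚ] (ℕ → ℚ)) (hΦ : ∀ j, Φ (lam j) = x j) (w : Fin n → ℂ)
    (hw : ∀ i, w i ∈ Submodule.span Qa (FF Φ : Set ℂ)) :
    ∃ r, ∀ i, w i ∈ XR lam x r := by
  classical
  have key : ∀ z ∈ Submodule.span Qa (FF Φ : Set ℂ), ∃ r, z ∈ XR lam x r := by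
    intro z hz
    induction hz using Submodule.span_induction with
    | mem z hz =>
      obtain ⟨hz1, hz2⟩ := mem_FF.1 hz
      obtain ⟨c, hc⟩ := Finsupp.mem_span_range_iff_exists_finsupp.1 (hspan z hz1)
      obtain ⟨r, hr⟩ : ∃ r, ∀ j ∈ c.support, j < r :=
        ⟨c.support.sup id + 1, fun j hj => Nat.lt_succ_of_le (Finset.le_sup (f := id) hj)⟩
      have hz3 : z = ∑ j : Fin r, c j • lam j := by
        rw [← hc, Finsupp.sum, Finset.sum_subset (s₂ := Finset.range r)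
          (fun j hj => Finset.mem_range.2 (hr j hj))
          (fun j _ hj => by rw [Finsupp.notMem_support_iff.1 hj, zero_smul])]
        exact (Fin.sum_univ_eq_sum_range (fun j => c j • lam j) r).symm
      refine ⟨r, mem_XR.2 ⟨fun j => ((c j : ℚ) : Qa), fun s => ?_, ?_⟩⟩
      · have h1 : ∑ j : Fin r, c j * x j s = 0 := by
          have h2 := congrArg (fun f => f s) hz2
          rw [hz3] at h2
          simpa [hΦ] using h2
        have h3 := congrArg (fun q : ℚ => (q : Qa)) h1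
        push_cast at h3
        exact h3
      · rw [hz3]
        refine Finset.sum_congr rfl fun j _ => ?_
        rw [Rat.smul_def, Algebra.smul_def]
        congr 1
    | zero => exact ⟨0, Submodule.zero_mem _⟩
    | add z z' _ _ hz hz' =>
      obtain ⟨r, hr⟩ := hz
      obtain ⟨r', hr'⟩ := hz'
      exact ⟨max r r', Submodule.add_mem _ (XR_mono lam x (le_max_left _ _) hr)
        (XR_mono lam x (le_max_right _ _) hr')⟩
    | smul q z _ hz =>
      obtain ⟨r, hr⟩ := hz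
      exact ⟨r, Submodule.smul_mem _ _ hr⟩
  choose r hr using fun i => key (w i) (hw i)
  exact ⟨Finset.univ.sup r, fun i => XR_mono lam x (Finset.le_sup (Finset.mem_univ i)) (hr i)⟩

/-- `XR lam x r` is spanned by rational combinations. -/
theorem XR_le_span (lam : ℕ → ℂ) (halg : ∀ j, IsAlgebraic ℚ (Complex.exp (lam j)))
    (x : ℕ → ℕ → ℚ) (m r : ℕ) (hx : ∀ j < r, ∀ t, m ≤ t → x j t = 0)
    (Φ : ℂ →ₗ[ℚ] (ℕ → ℚ)) (hΦ : ∀ j, Φ (lam j) = x j) :
    XR lam x r ≤ Submodule.span Qa ((FF Φ ⊓ Er lam r : Submodule ℚ ℂ) : Set ℂ) := by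
  rw [XR_eq lam x m r hx]
  refine (FQ.Xr_le_span lam (cut m x) r).trans (Submodule.span_mono ?_)
  rintro _ ⟨c, hc, rfl⟩
  have hsm : ∀ j : Fin r, ((c j : ℚ) : ℂ) * lam j = c j • lam j := fun j =>
    (Rat.smul_def _ _).symm
  refine ⟨mem_FF.2 ⟨?_, ?_⟩, ?_⟩
  · have h1 : ∑ j : Fin r, (c j : ℂ) * lam j ∈ SE.Lg := by
      refine Submodule.sum_mem _ fun j _ => ?_
      rw [hsm]
      exact Submodule.smul_mem _ _ (halg j)
    exact h1
  · funext t
    rw [map_sum, Finset.sum_apply, Pi.zero_apply]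
    have h2 : ∑ j : Fin r, c j * x j t = 0 := by
      rcases Nat.lt_or_ge t m with ht | ht
      · exact hc ⟨t, ht⟩
      · exact Finset.sum_eq_zero fun j _ => by rw [hx j j.2 t ht, mul_zero]
    rw [← h2]
    refine Finset.sum_congr rfl fun j _ => ?_
    rw [hsm, map_smul, hΦ, Pi.smul_apply, smul_eq_mul]
  · rw [Er_eq]
    refine Submodule.sum_mem _ fun j _ => ?_
    rw [hsm]
    exact Submodule.smul_mem _ _ (Submodule.subset_span ⟨j, rfl⟩)

/-- The codimension. -/
theorem codim (lam : ℕ → ℂ) (halg : ∀ j, IsAlgebraic ℚ (Complex.exp (lam j)))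
    (hli : LinearIndependent ℚ lam)
    (x : ℕ → ℕ → ℚ) (m r : ℕ) (hx : ∀ j < r, ∀ t, m ≤ t → x j t = 0)
    (Φ : ℂ →ₗ[ℚ] (ℕ → ℚ)) (hΦ : ∀ j, Φ (lam j) = x j) :
    r ≤ finrank ℚ (FF Φ ⊓ Er lam r : Submodule ℚ ℂ) + m := by
  have hfd : FiniteDimensional ℚ (Er lam r) := by
    rw [Er_eq]
    exact FiniteDimensional.span_of_finite ℚ (Set.finite_range _)
  have h1 : finrank ℚ (Er lam r) = r := by
    rw [Er_eq]
    have h2 := finrank_span_eq_card (hli.comp (fun j : Fin r => (j : ℕ)) Fin.val_injective)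
    rw [Fintype.card_fin] at h2
    exact h2
  obtain ⟨T, hT⟩ : ∃ T : Er lam r →ₗ[ℚ] (Fin m → ℚ), T =
      (LinearMap.funLeft ℚ ℚ (fun t : Fin m => (t : ℕ))) ∘ₗ Φ ∘ₗ (Er lam r).subtype := ⟨_, rfl⟩
  have hTv : ∀ (v : Er lam r) (t : Fin m), T v t = Φ (v : ℂ) t := by
    intro v t
    rw [hT]
    rfl
  have h2 := LinearMap.finrank_range_add_finrank_ker T
  have h3 : finrank ℚ (LinearMap.range T) ≤ m := by
    refine (Submodule.finrank_le _).trans ?_
    rw [Module.finrank_fin_fun]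
  have h4 : finrank ℚ (LinearMap.ker T) ≤ finrank ℚ (FF Φ ⊓ Er lam r : Submodule ℚ ℂ) := by
    have hfd2 : FiniteDimensional ℚ (FF Φ ⊓ Er lam r : Submodule ℚ ℂ) :=
      Submodule.finiteDimensional_of_le inf_le_right
    have h5 : (LinearMap.ker T).map (Er lam r).subtype ≤ FF Φ ⊓ Er lam r := by
      rintro _ ⟨v, hv, rfl⟩
      have hv' : ∀ t : Fin m, Φ (v : ℂ) t = 0 := by
        intro t
        rw [← hTv, LinearMap.mem_ker.1 hv]
        rfl
      refine ⟨mem_FF.2 ⟨?_, ?_⟩, v.2⟩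
      · have h6 : Er lam r ≤ SE.Lg := by
          unfold Er
          rw [Submodule.span_le]
          rintro _ ⟨j, -, rfl⟩
          exact halg j
        exact h6 v.2
      · funext t
        rcases Nat.lt_or_ge t m with ht | ht
        · exact hv' ⟨t, ht⟩
        · have h7 : ∀ z ∈ Er lam r, Φ z t = 0 := by
            intro z hz
            unfold Er at hz
            induction hz using Submodule.span_induction with
            | mem z hz =>
              obtain ⟨j, hj, rfl⟩ := hz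
              rw [hΦ]
              exact hx j hj t ht
            | zero => rw [map_zero]; rfl
            | add y z _ _ hy hz => rw [map_add, Pi.add_apply, hy, hz, add_zero]
            | smul q z _ hz => rw [map_smul, Pi.smul_apply, hz, smul_zero]
          exact h7 _ v.2
    have h6 := Submodule.finrank_mono h5
    rwa [LinearEquiv.finrank_eq (Submodule.equivMapOfInjective (Er lam r).subtype
      (Submodule.subtype_injective _) (LinearMap.ker T)).symm] at h6
  omega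

end MP60829e.SY
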